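import Pool.Agent.Helper644_ST.Iff

/-! The discrepancy over an extension when the law holds over the field. -/

set_option autoImplicit false
set_option linter.unusedSectionVars false

namespace Pool.Agent.Helper644_ST

open NumberField IsDedekindDomain Filter Topology MeasureTheory
open Pool.Agent.W401.Cheb (GK IsFrob)
open Pool.Agent.W540.BE (upto nm mem_upto exists_isFrob cheb_mean)

section
variable {K : Type} [Field K] [NumberField K] {G : Type} [Group G] [TopologicalSpace G]
  [IsTopologicalGroup G] [CompactSpace G] [MeasurableSpace G] [BorelSpace G] (μ : Measure G)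
  [IsProbabilityMeasure μ] [μ.IsHaarMeasure] (D : Datum K G)

/-- finitely many terms do not change the limit -/
theorem tendsto_congr_cofinite {F : Type} [Field F] [NumberField F]
    {φ ψ : HeightOneSpectrum (𝓞 F) → ℝ} (h : ∀ᶠ v in cofinite, φ v = ψ v) :
    Tendsto (fun N => (∑ v ∈ upto F N, φ v - ∑ v ∈ upto F N, ψ v) / (Nat.primeCounting N : ℝ))
      atTop (𝓝 0) := by
  classical
  have hfin : {w : HeightOneSpectrum (𝓞 F) | ¬ φ w = ψ w}.Finite := h
  refine negligible (∑ w ∈ hfin.toFinset, |φ w - ψ w|) fun N => ?_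
  have h1 : |∑ v ∈ upto F N, φ v - ∑ v ∈ upto F N, ψ v| ≤ ∑ w ∈ hfin.toFinset, |φ w - ψ w| := by
    rw [← Finset.sum_sub_distrib]
    refine (Finset.abs_sum_le_sum_abs _ _).trans ?_
    rw [← Finset.sum_filter_of_ne (p := fun w => w ∈ hfin.toFinset)]
    · refine Finset.sum_le_sum_of_subset_of_nonneg ?_ fun _ _ _ => abs_nonneg _
      intro w hw
      exact (Finset.mem_filter.1 hw).2
    · intro w hw hne
      rw [Set.Finite.mem_toFinset]
      intro h1
      apply hne
      rw [h1, sub_self, abs_zero]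
  refine h1.trans (le_mul_of_one_le_right (Finset.sum_nonneg fun _ _ => abs_nonneg _) ?_)
  have : (0 : ℝ) ≤ Nat.sqrt N := by positivity
  linarith

/-- the frobenius elements and a class function of the component -/
theorem frob_u (σ : HeightOneSpectrum (𝓞 K) → GK K) (hσ : ∀ v, IsFrob v (σ v)) (u : D.Q → ℝ)
    (hu : ∀ s t, u (s * t * s⁻¹) = u t) :
    ∀ᶠ v in cofinite, u (D.π (D.x v)) = u (D.r (σ v)) := by
  filter_upwards [D.frob] with v hv
  obtain ⟨c, hc⟩ := isConj_iff.1 (hv (σ v) (hσ v))
  rw [← hc, hu]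

/-- **The law with a class function of the component.** -/
theorem law_u (hST : D.SatoTate μ) (σ : HeightOneSpectrum (𝓞 K) → GK K)
    (hσ : ∀ v, IsFrob v (σ v)) (u : D.Q → ℝ) (hu : ∀ s t, u (s * t * s⁻¹) = u t) {f : G → ℝ}
    (hf : IsTest f) :
    Tendsto (fun N => (∑ v ∈ upto K N, u (D.r (σ v)) *
      (f (D.x v) - comp μ D.π f (D.r (σ v)))) / (Nat.primeCounting N : ℝ)) atTop (𝓝 0) := by
  classical
  let _ : Fintype D.Q := Fintype.ofFinite _
  have hcl : IsClassFunction fun g => u (D.π g) * f g := by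
    refine ⟨(cont_comp D.π D.π_open u).mul hf.continuous, fun g h => ?_⟩
    rw [hf.conj, map_mul, map_mul, map_inv, hu]
  obtain ⟨B, hB⟩ : ∃ B, ∀ q, |u q| ≤ B := by
    refine ⟨∑ q, |u q|, fun q => ?_⟩
    exact Finset.single_le_sum (f := fun q => |u q|) (fun _ _ => abs_nonneg _) (Finset.mem_univ q)
  have hB0 : 0 ≤ B := (abs_nonneg _).trans (hB 1)
  have hbd : ∀ v : HeightOneSpectrum (𝓞 K), |u (D.π (D.x v)) * f (D.x v)| ≤ B := by
    intro v
    rw [abs_mul]
    calc _ ≤ B * 1 := mul_le_mul (hB _) (bd_test hf _) (abs_nonneg _) hB0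
      _ = B := mul_one B
  have h1 := hST _ hcl
  have h2 := avg_sub (F := K) (fun v => u (D.π (D.x v)) * f (D.x v)) hbd
  have h3 := tendsto_congr_cofinite (F := K) (φ := fun v => u (D.π (D.x v)) * f (D.x v))
    (ψ := fun v => u (D.r (σ v)) * f (D.x v)) (by
      filter_upwards [frob_u D σ hσ u hu] with v hv
      rw [hv])
  -- the expected value
  have h4 := cheb_fin D.r D.r_open (fun q => u q * comp μ D.π f q) (by
    intro a b
    rw [hu, comp_conj μ D.π D.π_surjective f hf.conj]) σ hσ
  have h5 : (Nat.card D.r.range : ℝ)⁻¹ * ∑ᶠ t : D.r.range, u t * comp μ D.π f t =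
      ∫ g, u (D.π g) * f g ∂μ := by
    have e1 : D.r.range = ⊤ := MonoidHom.range_eq_top.2 D.r_surjective
    have e2 := sum_comp μ D.π D.π_open f hf.continuous u
    have e3 : ∑ᶠ t : D.r.range, u t * comp μ D.π f t = ∑ᶠ q : D.Q, u q * comp μ D.π f q := by
      rw [e1]
      exact finsum_comp_equiv (Equiv.Set.univ D.Q) (f := fun q => u q * comp μ D.π f q)
    have e4 : (Nat.card D.r.range : ℝ) = Nat.card D.Q := by
      rw [e1]
      exact_mod_cast Nat.card_congr (Equiv.Set.univ D.Q)
    rw [e3, e4, ← e2]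
    have h0 : (Nat.card D.Q : ℝ) ≠ 0 := by exact_mod_cast Nat.card_pos.ne'
    field_simp
  rw [h5] at h4
  have h6 := ((h1.sub h2).sub h3).sub h4
  rw [sub_zero, sub_zero, sub_self] at h6
  refine h6.congr fun N => ?_
  have e2 : ∀ (A B C : HeightOneSpectrum (𝓞 K) → ℝ), ∑ v ∈ upto K N, A v * (B v - C v) =
      ∑ v ∈ upto K N, A v * B v - ∑ v ∈ upto K N, A v * C v := by
    intro A B C
    rw [← Finset.sum_sub_distrib]
    exact Finset.sum_congr rfl fun v _ => by ring
  rw [e2]
  ring

variable {ι : Type} [Fintype ι] (F : ι → Type) [∀ i, Field (F i)] [∀ i, NumberField (F i)]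
  [∀ i, Algebra K (F i)] (c : ι → ℝ)

/-- the kernel of the joint action is open -/
theorem fam_open : IsOpen ((D.r.prod (MonoidHom.pi fun i => perm K (F i))).ker : Set (GK K)) := by
  have h3 : ((D.r.prod (MonoidHom.pi fun i => perm K (F i))).ker : Set (GK K)) =
      (D.r.ker : Set (GK K)) ∩ ⋂ i, ((perm K (F i)).ker : Set (GK K)) := by
    ext s
    rw [Set.mem_inter_iff, Set.mem_iInter, SetLike.mem_coe, SetLike.mem_coe, MonoidHom.mem_ker,
      MonoidHom.mem_ker, Prod.ext_iff]
    refine and_congr Iff.rfl ?_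
    rw [funext_iff]
    exact Iff.rfl
  rw [h3]
  exact D.r_open.inter (isOpen_iInter_of_finite fun i => perm_open K (F i))

/-- the group of the families -/
noncomputable def _root_.Pool.Agent.Helper644_ST.Datum.families :
    Subgroup (D.Q × ∀ i, Equiv.Perm (F i →ₐ[K] AlgebraicClosure K)) :=
  (D.r.prod (MonoidHom.pi fun i => perm K (F i))).range

/-- the families with first component `q` -/
def _root_.Pool.Agent.Helper644_ST.Datum.fibre (q : D.Q) : Set (D.families F) := {g | g.1.1 = q}

theorem condMean_def (q : D.Q) :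
    D.condMean F c q = mean fun g : D.fibre F q => fixSum c g.1.1.2 := rfl

theorem deviation_def : D.deviation F c =
    mean fun g : D.families F => |fixSum c g.1.2 - D.condMean F c g.1.1| := rfl

theorem families_finite : Finite (D.families F) := finite_range _ (fam_open D F)

omit [∀ i, NumberField (F i)] in
theorem fixSum_conj (a b : ∀ i, Equiv.Perm (F i →ₐ[K] AlgebraicClosure K)) :
    fixSum c (a * b * a⁻¹) = fixSum c b := by
  unfold fixSum
  refine Finset.sum_congr rfl fun i _ => ?_
  congr 2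
  refine Nat.card_congr (Equiv.subtypeEquiv (a i)⁻¹ fun j => ?_)
  rw [Pi.mul_apply, Pi.mul_apply, Pi.inv_apply, Equiv.Perm.mul_apply, Equiv.Perm.mul_apply]
  constructor
  · intro h
    rw [Equiv.Perm.eq_inv_iff_eq, h]
  · intro h
    rw [h]
    exact (a i).apply_symm_apply j

/-- the conditional mean is a class function -/
theorem condMean_conj (s t : D.Q) : D.condMean F c (s * t * s⁻¹) = D.condMean F c t := by
  obtain ⟨τ, rfl⟩ := D.r_surjective s
  let z : D.families F := ⟨(D.r.prod (MonoidHom.pi fun i => perm K (F i))) τ, τ, rfl⟩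
  let e : D.fibre F t ≃ D.fibre F (D.r τ * t * (D.r τ)⁻¹) :=
    Equiv.subtypeEquiv (MulAut.conj z).toEquiv fun g => by
      change g.1.1 = t ↔ D.r τ * g.1.1 * (D.r τ)⁻¹ = D.r τ * t * (D.r τ)⁻¹
      rw [mul_left_inj, mul_right_inj]
  rw [condMean_def, condMean_def]
  unfold mean
  rw [← Nat.card_congr e, ← finsum_comp_equiv e]
  congr 1
  refine finsum_congr fun g => ?_
  exact fixSum_conj F c (fun i => perm K (F i) τ) g.1.1.2

/-- the deviations from the conditional mean have mean value zero on the fibres -/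
theorem sum_cond (w : D.Q → ℝ) :
    ∑ᶠ g : D.families F, (fixSum c g.1.2 - D.condMean F c g.1.1) * w g.1.1 = 0 := by
  classical
  have hfin := families_finite D F
  let _ : Fintype (D.families F) := Fintype.ofFinite _
  let _ : Fintype D.Q := Fintype.ofFinite _
  rw [finsum_eq_sum_of_fintype, ← Finset.sum_fiberwise_of_maps_to (s := Finset.univ)
    (t := Finset.univ) (g := fun g : D.families F => g.1.1) (fun h _ => Finset.mem_univ _)]
  refine Finset.sum_eq_zero fun q _ => ?_
  have h1 : ∑ g ∈ Finset.univ.filter (fun g : D.families F => g.1.1 = q),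
      (fixSum c g.1.2 - D.condMean F c g.1.1) * w g.1.1 =
      (∑ g ∈ Finset.univ.filter (fun g : D.families F => g.1.1 = q),
        (fixSum c g.1.2 - D.condMean F c q)) * w q := by
    rw [Finset.sum_mul]
    refine Finset.sum_congr rfl fun g hg => ?_
    rw [(Finset.mem_filter.1 hg).2]
  rw [h1, Finset.sum_sub_distrib, Finset.sum_const, nsmul_eq_mul]
  have h2 : ((Finset.univ.filter (fun g : D.families F => g.1.1 = q)).card : ℝ) =
      Nat.card (D.fibre F q) := by
    change _ = (Nat.card {g : D.families F // g.1.1 = q} : ℝ)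
    rw [Nat.card_eq_fintype_card, Fintype.card_subtype]
  have h3 : ∑ g ∈ Finset.univ.filter (fun g : D.families F => g.1.1 = q), fixSum c g.1.2 =
      ∑ᶠ g : D.fibre F q, fixSum c g.1.1.2 := by
    change _ = ∑ᶠ g : {g : D.families F // g.1.1 = q}, fixSum c g.1.1.2
    rw [finsum_eq_sum_of_fintype]
    exact Finset.sum_subtype _ (fun x => by simp) _
  rw [h2, h3]
  rw [condMean_def]
  unfold mean
  rcases Nat.eq_zero_or_pos (Nat.card (D.fibre F q)) with h | h
  · have : IsEmpty (D.fibre F q) := by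
      rcases Nat.card_eq_zero.1 h with h' | h'
      · exact h'
      · exact absurd (inferInstance : Finite (D.fibre F q))
          (not_finite_iff_infinite.2 h')
    rw [h, finsum_of_isEmpty]
    simp
  · have h0 : (Nat.card (D.fibre F q) : ℝ) ≠ 0 := by exact_mod_cast h.ne'
    field_simp
    ring

/-- the mean of the deviation -/
theorem mean_dev (σ : HeightOneSpectrum (𝓞 K) → GK K) (hσ : ∀ v, IsFrob v (σ v)) :
    Tendsto (fun N => (∑ v ∈ upto K N, |∑ i, c i * (fixc K (F i) (σ v) : ℝ) -
      D.condMean F c (D.r (σ v))|) /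
      (Nat.primeCounting N : ℝ)) atTop (𝓝 (D.deviation F c)) := by
  have h1 := cheb_fin (D.r.prod (MonoidHom.pi fun i => perm K (F i))) (fam_open D F)
    (fun t => |fixSum c t.2 - D.condMean F c t.1|) (by
    intro a b
    rw [Prod.fst_mul, Prod.fst_mul, Prod.fst_inv, Prod.snd_mul, Prod.snd_mul, Prod.snd_inv,
      fixSum_conj, condMean_conj]) σ hσ
  have h2 : (Nat.card (D.r.prod (MonoidHom.pi fun i => perm K (F i))).range : ℝ)⁻¹ *
      ∑ᶠ t : (D.r.prod (MonoidHom.pi fun i => perm K (F i))).range,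
        |fixSum c t.1.2 - D.condMean F c t.1.1| = D.deviation F c := by
    rw [deviation_def]
    unfold mean Datum.families
    rw [div_eq_inv_mul]
  rw [h2] at h1
  exact h1

/-- **The discrepancies over extensions of a field over which the law holds.** -/
theorem up (hST : D.SatoTate μ) {f : G → ℝ} (hf : IsTest f) {η : ℝ} (hη : 0 < η) :
    ∀ᶠ N in atTop, |∑ i, c i * D.disc (F i) μ f N| ≤ 1 / 2 * D.deviation F c + η := by
  choose σ hσ using exists_isFrob (F := K)
  have hcl := comp_conj μ D.π D.π_surjective f hf.conj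
  let u := D.condMean F c
  have h1 := comb_eq μ D σ hσ hf F c
  have h2 := law_u μ D hST σ hσ u (condMean_conj D F c) hf
  have h3 := cheb_fin (D.r.prod (MonoidHom.pi fun i => perm K (F i))) (fam_open D F)
    (fun t => (fixSum c t.2 - D.condMean F c t.1) * (comp μ D.π f t.1 - 1 / 2)) (by
    intro a b
    rw [Prod.fst_mul, Prod.fst_mul, Prod.fst_inv, Prod.snd_mul, Prod.snd_mul, Prod.snd_inv,
      fixSum_conj, condMean_conj, hcl]) σ hσ
  have h4 : ∑ᶠ t : (D.r.prod (MonoidHom.pi fun i => perm K (F i))).range,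
      (fixSum c t.1.2 - D.condMean F c t.1.1) *
      (comp μ D.π f t.1.1 - 1 / 2) = 0 := sum_cond D F c fun q => comp μ D.π f q - 1 / 2
  rw [h4, mul_zero] at h3
  have h5 := bound (K := K) σ (X := fun N => ∑ i, c i * D.disc (F i) μ f N)
    (θ := fun s => ∑ i, c i * (fixc K (F i) s : ℝ) - D.condMean F c (D.r s))
    (e := fun v => f (D.x v) - 1 / 2) (b := 1 / 2) ?_ ?_ (mean_dev D F c σ hσ) hη
  · exact h5
  · intro v
    rw [abs_le]
    have h1 := hf.nonneg (D.x v)
    have h2 := hf.le_one (D.x v)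
    constructor <;> linarith
  · have h6 := (h1.add h2).sub h3
    rw [add_zero, sub_zero] at h6
    refine h6.congr fun N => ?_
    have e1 : ∀ v : HeightOneSpectrum (𝓞 K),
      fixSum c ((D.r.prod (MonoidHom.pi fun i => perm K (F i))) (σ v)).2 =
      ∑ i, c i * (fixc K (F i) (σ v) : ℝ) := fun v => rfl
    have e2 : ∀ v : HeightOneSpectrum (𝓞 K),
      ((D.r.prod (MonoidHom.pi fun i => perm K (F i))) (σ v)).1 = D.r (σ v) :=
      fun v => rfl
    simp only [e1, e2]
    have e3 : ∑ v ∈ upto K N, (∑ i, c i * (fixc K (F i) (σ v) : ℝ) -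
        D.condMean F c (D.r (σ v))) * (f (D.x v) - 1 / 2) =
        ∑ v ∈ upto K N, (∑ i, c i * (fixc K (F i) (σ v) : ℝ)) *
          (f (D.x v) - comp μ D.π f (D.r (σ v))) -
        ∑ v ∈ upto K N, u (D.r (σ v)) * (f (D.x v) - comp μ D.π f (D.r (σ v))) +
        ∑ v ∈ upto K N, (∑ i, c i * (fixc K (F i) (σ v) : ℝ) - D.condMean F c (D.r (σ v))) *
          (comp μ D.π f (D.r (σ v)) - 1 / 2) := by
      rw [← Finset.sum_sub_distrib, ← Finset.sum_add_distrib]
      exact Finset.sum_congr rfl fun v _ => by ring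
    rw [e3]
    ring

/-- the deviation vanishes for the subfields of the field which belongs to `Q` -/
theorem deviation_eq_zero (h : ∀ i, D.r.ker ≤ Datum.galois K (F i)) : D.deviation F c = 0 := by
  classical
  have hker : ∀ i, ∀ s : GK K, D.r s = 1 → perm K (F i) s = 1 := by
    intro i s hs
    refine Equiv.ext fun j => ?_
    obtain ⟨τ, hτ⟩ := perm_trans K (F i) (emb K (F i)) j
    have h1 : τ⁻¹ * s * τ ∈ Datum.galois K (F i) := by
      apply h i
      rw [MonoidHom.mem_ker, map_mul, map_mul, map_inv, hs, mul_one, inv_mul_cancel]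
    rw [mem_galois, map_mul, map_mul, map_inv, Equiv.Perm.mul_apply, Equiv.Perm.mul_apply, hτ,
      Equiv.Perm.inv_eq_iff_eq, hτ] at h1
    exact h1
  have hpair : ∀ g g' : D.families F, g.1.1 = g'.1.1 → g = g' := by
    rintro ⟨_, s, rfl⟩ ⟨_, s', rfl⟩ hg
    have hg' : D.r s = D.r s' := hg
    refine Subtype.ext (Prod.ext hg' (funext fun i => ?_))
    have h2 := hker i (s⁻¹ * s') (by rw [map_mul, map_inv, hg', inv_mul_cancel])
    rw [map_mul, map_inv, inv_mul_eq_one] at h2
    exact h2
  rw [deviation_def]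
  unfold mean
  rw [div_eq_zero_iff]
  left
  rw [← finsum_zero (α := D.families F)]
  refine finsum_congr fun g => ?_
  rw [abs_eq_zero, sub_eq_zero]
  rw [condMean_def]
  unfold mean
  have : Unique (D.fibre F g.1.1) :=
    { default := ⟨g, rfl⟩
      uniq := fun a => Subtype.ext (hpair _ _ a.2) }
  rw [finsum_unique, Nat.card_unique]
  have h3 : (default : D.fibre F g.1.1) = ⟨g, rfl⟩ := Subsingleton.elim _ _
  rw [h3, Nat.cast_one, div_one]

end

end Pool.Agent.Helper644_ST
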