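import Pool.Agent.Helper644_ST.Orb
import Pool.Agent.Helper644_ST.Up

/-! The inequality of Bessel for the discrepancies. -/

set_option autoImplicit false
set_option linter.unusedSectionVars false

namespace Pool.Agent.Helper644_ST

open NumberField IsDedekindDomain Filter Topology MeasureTheory
open Pool.Agent.W401.Cheb (GK IsFrob)
open Pool.Agent.W540.BE (upto nm mem_upto exists_isFrob cheb_mean)
open scoped TensorProduct

section
variable {K : Type} [Field K] [NumberField K]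

/-- the mean value over the primes, normalised by the number of rational primes -/
noncomputable def av (φ : HeightOneSpectrum (𝓞 K) → ℝ) (N : ℕ) : ℝ :=
  (∑ v ∈ upto K N, φ v) / (Nat.primeCounting N : ℝ)

theorem av_add (φ ψ : HeightOneSpectrum (𝓞 K) → ℝ) (N : ℕ) :
    av (fun v => φ v + ψ v) N = av φ N + av ψ N := by
  unfold av
  rw [Finset.sum_add_distrib, add_div]

theorem av_sub (φ ψ : HeightOneSpectrum (𝓞 K) → ℝ) (N : ℕ) :
    av (fun v => φ v - ψ v) N = av φ N - av ψ N := by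
  unfold av
  rw [Finset.sum_sub_distrib, sub_div]

theorem av_mul (c : ℝ) (φ : HeightOneSpectrum (𝓞 K) → ℝ) (N : ℕ) :
    av (fun v => c * φ v) N = c * av φ N := by
  unfold av
  rw [← Finset.mul_sum, mul_div_assoc]

theorem av_sum {ι : Type} (s : Finset ι) (φ : ι → HeightOneSpectrum (𝓞 K) → ℝ) (N : ℕ) :
    av (fun v => ∑ i ∈ s, φ i v) N = ∑ i ∈ s, av (φ i) N := by
  unfold av
  rw [Finset.sum_comm, Finset.sum_div]

theorem av_nonneg {φ : HeightOneSpectrum (𝓞 K) → ℝ} (h : ∀ v, 0 ≤ φ v) (N : ℕ) : 0 ≤ av φ N :=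
  div_nonneg (Finset.sum_nonneg fun v _ => h v) (Nat.cast_nonneg _)

theorem av_mono {φ ψ : HeightOneSpectrum (𝓞 K) → ℝ} (h : ∀ v, φ v ≤ ψ v) (N : ℕ) :
    av φ N ≤ av ψ N :=
  div_le_div_of_nonneg_right (Finset.sum_le_sum fun v _ => h v) (Nat.cast_nonneg _)

theorem av_const (c : ℝ) : Tendsto (av (K := K) fun _ => c) atTop (𝓝 c) := by
  have h1 := (card_ratio (F := K)).const_mul c
  rw [mul_one] at h1
  refine h1.congr fun N => ?_
  unfold av
  rw [Finset.sum_const, nsmul_eq_mul]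
  ring

/-- the expansion of a square -/
theorem av_sq {ι : Type} [Fintype ι] (g : ι → HeightOneSpectrum (𝓞 K) → ℝ)
    (h : HeightOneSpectrum (𝓞 K) → ℝ) (t : ι → ℝ) (N : ℕ) :
    0 ≤ av (fun v => h v * h v) N - 2 * ∑ i, t i * av (fun v => g i v * h v) N +
      ∑ i, ∑ j, t i * t j * av (fun v => g i v * g j v) N := by
  have h1 : 0 ≤ av (fun v => (h v - ∑ i, t i * g i v) ^ 2) N := av_nonneg (fun v => sq_nonneg _) N
  have h2 : (fun v => (h v - ∑ i, t i * g i v) ^ 2) = fun v => (h v * h v -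
      2 * ∑ i, t i * (g i v * h v)) + ∑ i, ∑ j, t i * t j * (g i v * g j v) := by
    funext v
    have h3 : ∑ i, t i * (g i v * h v) = (∑ i, t i * g i v) * h v := by
      rw [Finset.sum_mul]
      exact Finset.sum_congr rfl fun i _ => by ring
    have h4 : ∑ i, ∑ j, t i * t j * (g i v * g j v) = (∑ i, t i * g i v) * ∑ j, t j * g j v := by
      rw [Finset.sum_mul_sum]
      exact Finset.sum_congr rfl fun i _ => Finset.sum_congr rfl fun j _ => by ring
    rw [h3, h4]
    ring
  rw [h2, av_add, av_sub, av_mul, av_sum, av_sum] at h1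
  have h5 : ∑ i, av (fun v => t i * (g i v * h v)) N = ∑ i, t i * av (fun v => g i v * h v) N :=
    Finset.sum_congr rfl fun i _ => av_mul _ _ _
  have h6 : ∑ i, av (fun v => ∑ j, t i * t j * (g i v * g j v)) N =
      ∑ i, ∑ j, t i * t j * av (fun v => g i v * g j v) N := by
    refine Finset.sum_congr rfl fun i _ => ?_
    rw [av_sum]
    exact Finset.sum_congr rfl fun j _ => av_mul _ _ _
  rw [h5, h6] at h1
  exact h1

/-- **The inequality of Bessel** for almost orthogonal families. -/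
theorem bessel {ι : Type} [Fintype ι] (g : ι → HeightOneSpectrum (𝓞 K) → ℝ)
    (h : HeightOneSpectrum (𝓞 K) → ℝ) (ρ : ι → ℝ) (d : ι → ℕ → ℝ) (B b : ℝ)
    (hB : ∀ i, ∀ᶠ N in atTop, |d i N| ≤ B)
    (hg : ∀ i, Tendsto (av fun v => g i v * g i v) atTop (𝓝 (ρ i)))
    (hgg : ∀ i j, i ≠ j → Tendsto (av fun v => g i v * g j v) atTop (𝓝 0))
    (hd : ∀ i, Tendsto (fun N => d i N - av (fun v => g i v * h v) N) atTop (𝓝 0))
    (hb : ∀ η : ℝ, 0 < η → ∀ᶠ N in atTop, av (fun v => h v * h v) N ≤ b + η) (η : ℝ) (hη : 0 < η) :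
    ∀ᶠ N in atTop, ∑ i, (ρ i)⁻¹ * d i N ^ 2 ≤ b + η := by
  classical
  set e : ι → ℕ → ℝ := fun i N => d i N - av (fun v => g i v * h v) N with he
  set s : ι → ι → ℕ → ℝ := fun i j N => av (fun v => g i v * g j v) N - (if i = j then ρ i else 0)
    with hs
  have hs0 : ∀ i j, Tendsto (s i j) atTop (𝓝 0) := by
    intro i j
    by_cases hij : i = j
    · subst hij
      have h1 := (hg i).sub_const (ρ i)
      rw [sub_self] at h1
      simpa [hs] using h1
    · have h1 := hgg i j hij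
      simpa [hs, hij] using h1
  set E : ℕ → ℝ := fun N => 2 * ∑ i, |(ρ i)⁻¹| * B * |e i N| +
    ∑ i, ∑ j, |(ρ i)⁻¹| * B * (|(ρ j)⁻¹| * B) * |s i j N| with hE
  have hE0 : Tendsto E atTop (𝓝 0) := by
    have h1 : Tendsto (fun N => ∑ i, |(ρ i)⁻¹| * B * |e i N|) atTop (𝓝 (∑ i : ι, 0)) := by
      refine tendsto_finsetSum _ fun i _ => ?_
      have := (hd i).abs.const_mul (|(ρ i)⁻¹| * B)
      rw [abs_zero, mul_zero] at this
      exact this
    have h2 : Tendsto (fun N => ∑ i, ∑ j, |(ρ i)⁻¹| * B * (|(ρ j)⁻¹| * B) * |s i j N|) atTop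
        (𝓝 (∑ i : ι, ∑ j : ι, 0)) := by
      refine tendsto_finsetSum _ fun i _ => tendsto_finsetSum _ fun j _ => ?_
      have := (hs0 i j).abs.const_mul (|(ρ i)⁻¹| * B * (|(ρ j)⁻¹| * B))
      rw [abs_zero, mul_zero] at this
      exact this
    have h3 := (h1.const_mul 2).add h2
    simp only [Finset.sum_const_zero, mul_zero, add_zero] at h3
    exact h3
  have hB' : ∀ᶠ N in atTop, ∀ i, |d i N| ≤ B := eventually_all.2 hB
  filter_upwards [hB', hE0.eventually_lt_const (show (0 : ℝ) < η / 2 by positivity),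
    hb (η / 2) (by positivity)] with N h1 h2 h3
  have h4 := av_sq g h (fun i => (ρ i)⁻¹ * d i N) N
  have h5 : ∀ i, |(ρ i)⁻¹ * d i N| ≤ |(ρ i)⁻¹| * B := fun i => by
    rw [abs_mul]
    exact mul_le_mul_of_nonneg_left (h1 i) (abs_nonneg _)
  -- the terms
  have h6 : ∑ i, ((ρ i)⁻¹ * d i N) * av (fun v => g i v * h v) N =
      ∑ i, (ρ i)⁻¹ * d i N ^ 2 - ∑ i, ((ρ i)⁻¹ * d i N) * e i N := by
    rw [← Finset.sum_sub_distrib]
    refine Finset.sum_congr rfl fun i _ => ?_
    simp only [he]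
    ring
  have h7 : ∑ i, ∑ j, ((ρ i)⁻¹ * d i N) * ((ρ j)⁻¹ * d j N) * av (fun v => g i v * g j v) N =
      ∑ i, (ρ i)⁻¹ * d i N ^ 2 +
        ∑ i, ∑ j, ((ρ i)⁻¹ * d i N) * ((ρ j)⁻¹ * d j N) * s i j N := by
    have h8 : ∀ i j, ((ρ i)⁻¹ * d i N) * ((ρ j)⁻¹ * d j N) * av (fun v => g i v * g j v) N =
        (if i = j then ((ρ i)⁻¹ * d i N) * ((ρ j)⁻¹ * d j N) * ρ i else 0) +
          ((ρ i)⁻¹ * d i N) * ((ρ j)⁻¹ * d j N) * s i j N := by
      intro i j
      simp only [hs]
      split_ifs <;> ring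
    simp only [h8, Finset.sum_add_distrib]
    congr 1
    refine Finset.sum_congr rfl fun i _ => ?_
    rw [Finset.sum_ite_eq Finset.univ i]
    simp only [Finset.mem_univ, if_true]
    by_cases h0 : ρ i = 0
    · rw [h0]; simp
    · field_simp
  rw [h6, h7] at h4
  have h9 : ∑ i, ((ρ i)⁻¹ * d i N) * e i N ≤ ∑ i, |(ρ i)⁻¹| * B * |e i N| :=
    Finset.sum_le_sum fun i _ => (le_abs_self _).trans (by
      rw [abs_mul]
      exact mul_le_mul_of_nonneg_right (h5 i) (abs_nonneg _))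
  have h10 : ∑ i, ∑ j, ((ρ i)⁻¹ * d i N) * ((ρ j)⁻¹ * d j N) * s i j N ≤
      ∑ i, ∑ j, |(ρ i)⁻¹| * B * (|(ρ j)⁻¹| * B) * |s i j N| :=
    Finset.sum_le_sum fun i _ => Finset.sum_le_sum fun j _ => (le_abs_self _).trans (by
      rw [abs_mul, abs_mul]
      exact mul_le_mul_of_nonneg_right (mul_le_mul (h5 i) (h5 j) (abs_nonneg _)
        ((abs_nonneg _).trans (h5 i))) (abs_nonneg _))
  have h11 : E N = 2 * ∑ i, |(ρ i)⁻¹| * B * |e i N| +
    ∑ i, ∑ j, |(ρ i)⁻¹| * B * (|(ρ j)⁻¹| * B) * |s i j N| := rfl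
  linarith

/-- the functions `fix_i - 1` are almost orthogonal -/
theorem gram (σ : HeightOneSpectrum (𝓞 K) → GK K) (hσ : ∀ v, IsFrob v (σ v)) (F F' : Type)
    [Field F] [NumberField F] [Field F'] [NumberField F'] [Algebra K F] [Algebra K F'] :
    Tendsto (av fun v => ((fixc K F (σ v) : ℝ) - 1) * ((fixc K F' (σ v) : ℝ) - 1)) atTop
      (𝓝 ((numFields K F F' : ℝ) - 1)) := by
  have h1 : Tendsto (av fun v => (fixc K F (σ v) : ℝ) * fixc K F' (σ v)) atTop
    (𝓝 (numFields K F F')) := moment K F F' σ hσ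
  have h2 : Tendsto (av fun v => (fixc K F (σ v) : ℝ)) atTop (𝓝 1) := mean_one σ hσ F
  have h3 : Tendsto (av fun v => (fixc K F' (σ v) : ℝ)) atTop (𝓝 1) := mean_one σ hσ F'
  have h4 := ((h1.sub h2).sub h3).add (av_const (K := K) 1)
  have h5 : (numFields K F F' : ℝ) - 1 - 1 + 1 = (numFields K F F' : ℝ) - 1 := by ring
  rw [h5] at h4
  refine h4.congr fun N => ?_
  rw [← av_sub, ← av_sub, ← av_add]
  congr 1
  funext v
  ring

/-- the number of fields is at most the degree -/
theorem numFields_le (F : Type) [Field F] [NumberField F] [Algebra K F] :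
    numFields K F F ≤ Module.finrank K F := by
  choose σ hσ using exists_isFrob (F := K)
  have hfd := fd (K := K) (F := F)
  have h1 : Tendsto (av fun v => (fixc K F (σ v) : ℝ) * fixc K F (σ v)) atTop
    (𝓝 (numFields K F F)) := moment K F F σ hσ
  have h2 : Tendsto (av fun v => (fixc K F (σ v) : ℝ)) atTop (𝓝 1) := mean_one σ hσ F
  have h3 := h2.const_mul (Module.finrank K F : ℝ)
  rw [mul_one] at h3
  have h4 := le_of_tendsto_of_tendsto' h1 h3 fun N => by
    rw [← av_mul]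
    refine av_mono (fun v => mul_le_mul_of_nonneg_right ?_ (Nat.cast_nonneg _)) N
    have h5 : fixc K F (σ v) ≤ Nat.card (F →ₐ[K] AlgebraicClosure K) :=
      Nat.card_le_card_of_injective _ Subtype.val_injective
    have h6 : Nat.card (F →ₐ[K] AlgebraicClosure K) = Module.finrank K F := by
      rw [Nat.card_eq_fintype_card, AlgHom.card]
    rw [h6] at h5
    exact_mod_cast h5
  exact_mod_cast h4

theorem numFields_pos (F : Type) [Field F] [NumberField F] [Algebra K F] :
    (1 : ℝ) ≤ numFields K F F := by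
  choose σ hσ using exists_isFrob (F := K)
  have h1 := gram σ hσ F F
  have h2 := ge_of_tendsto' h1 fun N => av_nonneg (fun v => mul_self_nonneg _) N
  linarith

theorem weight_nonneg (F : Type) [Field F] [NumberField F] [Algebra K F] : 0 ≤ weight K F := by
  unfold weight
  have := numFields_pos (K := K) F
  exact inv_nonneg.2 (by linarith)

/-- squares of bounded functions -/
theorem av_bdd {h : HeightOneSpectrum (𝓞 K) → ℝ} {c : ℝ} (hc : ∀ v, |h v| ≤ c) (η : ℝ)
    (hη : 0 < η) : ∀ᶠ N in atTop, av (fun v => h v * h v) N ≤ c ^ 2 + η := by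
  filter_upwards [(av_const (K := K) (c ^ 2)).eventually_lt_const (show c ^ 2 < c ^ 2 + η by linarith)]
    with N hN
  refine (av_mono (fun v => ?_) N).trans hN.le
  rw [← abs_mul_abs_self, ← sq]
  exact pow_le_pow_left₀ (abs_nonneg _) (hc v) 2

end

section
variable {K : Type} [Field K] [NumberField K] {G : Type} [Group G] [TopologicalSpace G]
  [IsTopologicalGroup G] [CompactSpace G] [MeasurableSpace G] [BorelSpace G] (μ : Measure G)
  [IsProbabilityMeasure μ] [μ.IsHaarMeasure] (D : Datum K G)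

/-- two fields with the same Sato-Tate group -/
theorem pair_eq_half (σ : HeightOneSpectrum (𝓞 K) → GK K) (hσ : ∀ v, IsFrob v (σ v)) {f : G → ℝ}
    (hf : IsTest f) (F : Type) [Field F] [NumberField F] [Algebra K F] (hF : D.groupOver F = ⊤) :
    Tendsto (fun N => (D.disc F μ f N - D.disc K μ f N) - (∑ v ∈ upto K N,
      ((fixc K F (σ v) : ℝ) - 1) * (f (D.x v) - 1 / 2)) /
      (Nat.primeCounting N : ℝ)) atTop (𝓝 0) := by
  have h1 := pair_eq μ D σ hσ hf F
  have hm : ∀ (E : Type) [Field E] [NumberField E] [Algebra K E], D.groupOver E = ⊤ →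
      Tendsto (fun N => (∑ v ∈ upto K N, (fixc K E (σ v) : ℝ) * comp μ D.π f (D.r (σ v))) /
        (Nat.primeCounting N : ℝ)) atTop (𝓝 (∫ g, f g ∂μ)) := by
    intro E _ _ _ hE
    have h3 := cheb_ext E D.r D.r_open (comp μ D.π f)
      (comp_conj μ D.π D.π_surjective f hf.conj) σ hσ
    have h4 := average_comap μ D.π D.π_surjective D.π_open f hf.continuous
      ((Datum.galois K E).map D.r)
    have h5 : ((Datum.galois K E).map D.r).comap D.π = ⊤ := hE
    rw [h5, Subgroup.coe_top, Measure.restrict_univ, average_eq_integral] at h4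
    rw [← h4] at h3
    exact h3
  have h2 := (hm F hF).sub (hm K (groupOver_self D))
  rw [sub_self] at h2
  have h3 := (mean_one σ hσ F).sub (mean_one σ hσ K)
  rw [sub_self] at h3
  have h6 := h1.sub h2
  rw [sub_zero] at h6
  have h7 := h6.add (h3.const_mul (1 / 2))
  rw [mul_zero, add_zero] at h7
  refine h7.congr fun N => ?_
  simp only [fixc_self, Nat.cast_one, one_mul]
  have e2 : ∀ (A B C : HeightOneSpectrum (𝓞 K) → ℝ), ∑ v ∈ upto K N, (A v - 1) * (B v - C v) =
      ∑ v ∈ upto K N, A v * B v - ∑ v ∈ upto K N, A v * C v - ∑ v ∈ upto K N, B v +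
        ∑ v ∈ upto K N, C v := by
    intro A B C
    rw [← Finset.sum_sub_distrib, ← Finset.sum_sub_distrib, ← Finset.sum_add_distrib]
    exact Finset.sum_congr rfl fun v _ => by ring
  rw [e2, e2, ← Finset.sum_mul, Finset.sum_const, Finset.sum_const, nsmul_eq_mul, nsmul_eq_mul]
  ring

/-- the mean square of the error if the law holds -/
theorem law_sq (hST : D.SatoTate μ) (σ : HeightOneSpectrum (𝓞 K) → GK K)
    (hσ : ∀ v, IsFrob v (σ v)) {f : G → ℝ} (hf : IsTest f) (η : ℝ) (hη : 0 < η) :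
    ∀ᶠ N in atTop, av (fun v => (f (D.x v) - comp μ D.π f (D.r (σ v))) *
      (f (D.x v) - comp μ D.π f (D.r (σ v)))) N ≤ 1 / 4 + η := by
  have h1 := law_u μ D hST σ hσ (fun _ => 1) (fun _ _ => rfl) hf
  have h2 := law_u μ D hST σ hσ (comp μ D.π f) (comp_conj μ D.π D.π_surjective f hf.conj) hf
  have h3 := (h1.sub (h2.const_mul 2)).add (av_const (K := K) (1 / 4))
  have h4 : (0 : ℝ) - 2 * 0 + 1 / 4 = 1 / 4 := by norm_num
  rw [h4] at h3
  filter_upwards [h3.eventually_lt_const (show (1 : ℝ) / 4 < 1 / 4 + η by linarith)] with N hN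
  refine le_trans ?_ hN.le
  have h5 : (∑ v ∈ upto K N, (1 : ℝ) * (f (D.x v) - comp μ D.π f (D.r (σ v)))) /
      (Nat.primeCounting N : ℝ) - 2 * ((∑ v ∈ upto K N, comp μ D.π f (D.r (σ v)) *
      (f (D.x v) - comp μ D.π f (D.r (σ v)))) / (Nat.primeCounting N : ℝ)) +
      av (K := K) (fun _ => 1 / 4) N = av (fun v => (1 * (f (D.x v) - comp μ D.π f (D.r (σ v))) -
        2 * (comp μ D.π f (D.r (σ v)) * (f (D.x v) - comp μ D.π f (D.r (σ v))))) + 1 / 4) N := by
    rw [av_add, av_sub, av_mul (2 : ℝ)]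
    rfl
  rw [h5]
  refine av_mono (fun v => ?_) N
  have h6 := hf.nonneg (D.x v)
  have h7 := hf.le_one (D.x v)
  nlinarith [sq_nonneg (comp μ D.π f (D.r (σ v)) - 1 / 2)]

/-- the differences of the discrepancies are bounded -/
theorem bounded {ι : Type} [Fintype ι] (F : ι → Type) [∀ i, Field (F i)] [∀ i, NumberField (F i)]
    [∀ i, Algebra K (F i)] {f : G → ℝ} (hf : IsTest f) : ∃ B : ℝ, ∀ i, ∀ᶠ N in atTop,
      |D.disc (F i) μ f N - D.disc K μ f N| ≤ B := by
  refine ⟨∑ i, (2 * derangements K (F i) + 1), fun i => ?_⟩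
  have hd : ∀ j, 0 ≤ derangements K (F j) := fun j => by
    unfold derangements
    positivity
  filter_upwards [two_fields μ D (F i) hf one_pos] with N hN
  refine hN.trans ?_
  exact Finset.single_le_sum (f := fun j => 2 * derangements K (F j) + 1)
    (fun j _ => by linarith [hd j]) (Finset.mem_univ i)

section
variable {ι : Type} [Fintype ι] (F : ι → Type) [∀ i, Field (F i)] [∀ i, NumberField (F i)]
  [∀ i, Algebra K (F i)] (hF : Independent K F) {f : G → ℝ} (hf : IsTest f) (η : ℝ) (hη : 0 < η)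

include hF

theorem gram_ij (σ : HeightOneSpectrum (𝓞 K) → GK K) (hσ : ∀ v, IsFrob v (σ v)) (i j : ι)
    (hij : i ≠ j) : Tendsto (av fun v => ((fixc K (F i) (σ v) : ℝ) - 1) *
      ((fixc K (F j) (σ v) : ℝ) - 1)) atTop (𝓝 0) := by
  have h1 := gram σ hσ (F i) (F j)
  rw [hF i j hij] at h1
  simpa using h1

include hf hη

/-- **The inequality of Bessel for the discrepancies.** -/
theorem bessel_one : ∀ᶠ N in atTop,
    ∑ i, weight K (F i) * (D.disc (F i) μ f N - D.disc K μ f N) ^ 2 ≤ 1 + η := by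
  choose σ hσ using exists_isFrob (F := K)
  obtain ⟨B, hB⟩ := bounded μ D F hf
  have h1 := bessel (fun i v => (fixc K (F i) (σ v) : ℝ) - 1)
    (fun v => f (D.x v) - comp μ D.π f (D.r (σ v))) (fun i => (numFields K (F i) (F i) : ℝ) - 1)
    (fun i N => D.disc (F i) μ f N - D.disc K μ f N) B (1 ^ 2) hB
    (fun i => gram σ hσ (F i) (F i)) (fun i j hij => gram_ij F hF σ hσ i j hij)
    (fun i => pair_eq μ D σ hσ hf (F i)) (fun ε hε => av_bdd (fun v => err_bd μ D hf σ v) ε hε) η hη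
  rw [one_pow] at h1
  exact h1

/-- **The inequality of Bessel for the discrepancies**, equal Sato-Tate groups. -/
theorem bessel_top (h : ∀ i, D.groupOver (F i) = ⊤) : ∀ᶠ N in atTop,
    ∑ i, weight K (F i) * (D.disc (F i) μ f N - D.disc K μ f N) ^ 2 ≤ 1 / 4 + η := by
  choose σ hσ using exists_isFrob (F := K)
  obtain ⟨B, hB⟩ := bounded μ D F hf
  have h1 := bessel (fun i v => (fixc K (F i) (σ v) : ℝ) - 1)
    (fun v => f (D.x v) - 1 / 2) (fun i => (numFields K (F i) (F i) : ℝ) - 1)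
    (fun i N => D.disc (F i) μ f N - D.disc K μ f N) B ((1 / 2) ^ 2) hB
    (fun i => gram σ hσ (F i) (F i)) (fun i j hij => gram_ij F hF σ hσ i j hij)
    (fun i => pair_eq_half μ D σ hσ hf (F i) (h i)) (fun ε hε => av_bdd (fun v => by
      have h6 := hf.nonneg (D.x v)
      have h7 := hf.le_one (D.x v)
      rw [abs_le]
      constructor <;> linarith) ε hε) η hη
  have e : ((1 : ℝ) / 2) ^ 2 = 1 / 4 := by norm_num
  rw [e] at h1
  exact h1

/-- **The inequality of Bessel for the discrepancies**, if the law holds over `K`. -/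
theorem bessel_law (hST : D.SatoTate μ) : ∀ᶠ N in atTop,
    ∑ i, weight K (F i) * D.disc (F i) μ f N ^ 2 ≤ 1 / 4 + η := by
  choose σ hσ using exists_isFrob (F := K)
  obtain ⟨B, hB⟩ := bounded μ D F hf
  have hK := (st_iff μ D).1 hST f hf
  have hK1 := hK.abs
  rw [abs_zero] at hK1
  refine bessel (fun i v => (fixc K (F i) (σ v) : ℝ) - 1)
    (fun v => f (D.x v) - comp μ D.π f (D.r (σ v))) (fun i => (numFields K (F i) (F i) : ℝ) - 1)
    (fun i N => D.disc (F i) μ f N) (B + 1) (1 / 4) (fun i => ?_)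
    (fun i => gram σ hσ (F i) (F i)) (fun i j hij => gram_ij F hF σ hσ i j hij)
    (fun i => ?_) (fun ε hε => law_sq μ D hST σ hσ hf ε hε) η hη
  · filter_upwards [hB i, hK1.eventually_lt_const (show (0 : ℝ) < 1 by norm_num)] with N h1 h2
    have h3 := abs_sub_abs_le_abs_sub (D.disc (F i) μ f N) (D.disc K μ f N)
    linarith
  · have h1 := (pair_eq μ D σ hσ hf (F i)).add hK
    rw [add_zero] at h1
    refine h1.congr fun N => ?_
    unfold av
    ring

end

end

end Pool.Agent.Helper644_ST
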