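import Pool.Agent.Helper644_ST.Defs

/-!
# Independent families of extension fields: definitions
-/

set_option autoImplicit false

namespace Pool.Agent.Helper644_ST

open scoped TensorProduct

/-- The number of the maximal ideals of `F ⊗_K F'`, that is, the number of the fields whose product is
`F ⊗_K F'` (for number fields).  It is `1` if and only if `F` and `F'` are linearly disjoint over `K`,
for all their embeddings over `K` into an algebraically closed field. -/
noncomputable def numFields (K F F' : Type) [Field K] [Field F] [Field F'] [Algebra K F]
    [Algebra K F'] : ℕ := Nat.card (MaximalSpectrum (F ⊗[K] F'))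

/-- The weight `1 / (r - 1)` of the field `F ≠ K`, where `r = numFields K F F` is the rank of the Galois
group of the normal closure of `F / K` as a permutation group of the embeddings of `F`.  It is `1` for
the quadratic extensions, and whenever this permutation group is doubly transitive.  (For `F = K` it
is `0`.) -/
noncomputable def weight (K F : Type) [Field K] [Field F] [Algebra K F] : ℝ :=
  ((numFields K F F : ℝ) - 1)⁻¹

/-- The extensions `F i` of `K` are linearly disjoint in pairs: `F_i ⊗_K F_j` is a field for `i ≠ j`. -/
def Independent (K : Type) [Field K] {ι : Type} (F : ι → Type) [∀ i, Field (F i)]
    [∀ i, Algebra K (F i)] : Prop := ∀ i j, i ≠ j → numFields K (F i) (F j) = 1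

end Pool.Agent.Helper644_ST
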