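import Pool.Agent.Helper644_ST.Bes

/-! The law over a field and the laws over an independent family of extensions. -/

set_option autoImplicit false
set_option linter.unusedSectionVars false

namespace Pool.Agent.Helper644_ST

open NumberField IsDedekindDomain Filter Topology MeasureTheory
open Pool.Agent.W401.Cheb (GK IsFrob)
open Pool.Agent.W540.BE (upto nm mem_upto exists_isFrob cheb_mean)
open scoped TensorProduct

section
variable {K : Type} [Field K] [NumberField K] {G : Type} [Group G] [TopologicalSpace G]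
  [IsTopologicalGroup G] [CompactSpace G] [MeasurableSpace G] [BorelSpace G] (μ : Measure G)
  [IsProbabilityMeasure μ] [μ.IsHaarMeasure] (D : Datum K G)
  (F : ℕ → Type) [∀ i, Field (F i)] [∀ i, NumberField (F i)] [∀ i, Algebra K (F i)]

theorem sum_fin (m : ℕ) (a : ℕ → ℝ) : ∑ i : Fin m, a i = ∑ i ∈ Finset.range m, a i :=
  Fin.sum_univ_eq_sum_range a m

/-- the sum of the weights -/
theorem weights_atTop (h : ¬ Summable fun i => weight K (F i)) :
    Tendsto (fun m => ∑ i ∈ Finset.range m, weight K (F i)) atTop atTop :=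
  (not_summable_iff_tendsto_nat_atTop_of_nonneg fun i => weight_nonneg (F i)).1 h

/-- weighted sums of absolute values and of squares -/
theorem sum_abs_le {ι : Type} (s : Finset ι) (w a : ι → ℝ) (hw : ∀ i, 0 ≤ w i) {η : ℝ}
    (hη : 0 < η) : ∑ i ∈ s, w i * |a i| ≤ (1 / η) * ∑ i ∈ s, w i * a i ^ 2 + η / 4 * ∑ i ∈ s, w i := by
  rw [Finset.mul_sum, Finset.mul_sum, ← Finset.sum_add_distrib]
  refine Finset.sum_le_sum fun i _ => ?_
  have h1 : |a i| ≤ (1 / η) * a i ^ 2 + η / 4 := by
    have h2 : (1 / η) * a i ^ 2 + η / 4 - |a i| = (1 / η) * (|a i| - η / 2) ^ 2 := by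
      rw [← sq_abs (a i)]
      field_simp
      ring
    have h3 : 0 ≤ (1 / η) * (|a i| - η / 2) ^ 2 := by positivity
    linarith
  calc w i * |a i| ≤ w i * ((1 / η) * a i ^ 2 + η / 4) := mul_le_mul_of_nonneg_left h1 (hw i)
    _ = _ := by ring

variable (hF : Independent K F)

include hF

theorem indep_fin (m : ℕ) : Independent K fun i : Fin m => F i :=
  fun i j hij => hF i j fun h => hij (Fin.ext h)

/-- from the law over `K` to the law on average -/
theorem law_avg (hw : ¬ Summable fun i => weight K (F i)) (hST : D.SatoTate μ) {f : G → ℝ}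
    (hf : IsTest f) {η : ℝ} (hη : 0 < η) : ∀ᶠ m in atTop, ∀ᶠ N in atTop,
      ∑ i ∈ Finset.range m, weight K (F i) * |D.disc (F i) μ f N| ≤
        η * ∑ i ∈ Finset.range m, weight K (F i) := by
  filter_upwards [(weights_atTop F hw).eventually_ge_atTop (2 / η ^ 2)] with m hm
  filter_upwards [bessel_law μ D (fun i : Fin m => F i) (indep_fin F hF m) hf (1 / 4) (by norm_num)
    hST] with N hN
  have h1 := sum_abs_le (Finset.range m) (fun i => weight K (F i)) (fun i => D.disc (F i) μ f N)
    (fun i => weight_nonneg (F i)) hη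
  have h2 : ∑ i ∈ Finset.range m, weight K (F i) * D.disc (F i) μ f N ^ 2 ≤ 1 := by
    rw [← sum_fin m fun i => weight K (F i) * D.disc (F i) μ f N ^ 2]
    linarith
  have h3 : (1 / η) * ∑ i ∈ Finset.range m, weight K (F i) * D.disc (F i) μ f N ^ 2 ≤ 1 / η := by
    calc _ ≤ (1 / η) * 1 := mul_le_mul_of_nonneg_left h2 (by positivity)
      _ = 1 / η := mul_one _
  have h4 : 1 / η ≤ η / 2 * ∑ i ∈ Finset.range m, weight K (F i) := by
    calc 1 / η = η / 2 * (2 / η ^ 2) := by field_simp
      _ ≤ _ := mul_le_mul_of_nonneg_left hm (by positivity)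
  have h5 : 0 ≤ ∑ i ∈ Finset.range m, weight K (F i) :=
    Finset.sum_nonneg fun i _ => weight_nonneg (F i)
  nlinarith

/-- from the law on average to the law over `K` -/
theorem avg_law (hw : ¬ Summable fun i => weight K (F i))
    (h : ∀ f, IsTest f → ∀ η : ℝ, 0 < η → ∃ᶠ m in atTop, ∀ᶠ N in atTop,
      ∑ i ∈ Finset.range m, weight K (F i) * |D.disc (F i) μ f N| ≤
        η * ∑ i ∈ Finset.range m, weight K (F i)) : D.SatoTate μ := by
  rw [st_iff]
  intro f hf
  rw [Metric.tendsto_atTop']
  intro ε hε
  set η : ℝ := ε / 4 with hηd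
  have hη : 0 < η := by positivity
  obtain ⟨m, hm1, hm2⟩ := ((h f hf η hη).and_eventually
    ((weights_atTop F hw).eventually_ge_atTop (2 / η ^ 2))).exists
  set W := ∑ i ∈ Finset.range m, weight K (F i) with hW
  have hWpos : 0 < W := lt_of_lt_of_le (by positivity) hm2
  have h3 : ∀ᶠ N in atTop, dist (D.disc K μ f N) 0 < ε := by
    filter_upwards [hm1, bessel_one μ D (fun i : Fin m => F i) (indep_fin F hF m) hf 1 one_pos]
      with N h4 h5
    rw [Real.dist_eq, sub_zero]
    have h6 := sum_abs_le (Finset.range m) (fun i => weight K (F i))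
      (fun i => D.disc (F i) μ f N - D.disc K μ f N) (fun i => weight_nonneg (F i)) hη
    have h7 : ∑ i ∈ Finset.range m, weight K (F i) * (D.disc (F i) μ f N - D.disc K μ f N) ^ 2 ≤
        2 := by
      rw [← sum_fin m fun i => weight K (F i) * (D.disc (F i) μ f N - D.disc K μ f N) ^ 2]
      linarith
    have h8 : W * |D.disc K μ f N| ≤
        ∑ i ∈ Finset.range m, weight K (F i) * |D.disc (F i) μ f N - D.disc K μ f N| +
        ∑ i ∈ Finset.range m, weight K (F i) * |D.disc (F i) μ f N| := by
      rw [hW, Finset.sum_mul, ← Finset.sum_add_distrib]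
      refine Finset.sum_le_sum fun i _ => ?_
      rw [← mul_add]
      refine mul_le_mul_of_nonneg_left ?_ (weight_nonneg (F i))
      have := abs_sub_abs_le_abs_sub (D.disc K μ f N) (D.disc (F i) μ f N)
      rw [abs_sub_comm] at this
      linarith
    have h9 : (1 / η) * ∑ i ∈ Finset.range m,
        weight K (F i) * (D.disc (F i) μ f N - D.disc K μ f N) ^ 2 ≤ 2 / η := by
      calc _ ≤ (1 / η) * 2 := mul_le_mul_of_nonneg_left h7 (by positivity)
        _ = 2 / η := by ring
    have h10 : 2 / η ≤ η * W := by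
      calc 2 / η = η * (2 / η ^ 2) := by field_simp
        _ ≤ _ := mul_le_mul_of_nonneg_left hm2 hη.le
    have h11 : W * |D.disc K μ f N| ≤ W * (η * (9 / 4)) := by nlinarith
    have h12 := le_of_mul_le_mul_left h11 hWpos
    rw [hηd] at h12
    linarith
  obtain ⟨N0, hN0⟩ := eventually_atTop.1 h3
  exact ⟨N0, fun N hN => hN0 N hN.le⟩

/-- **The law over `K` is equivalent to the law on average over an independent family.** -/
theorem avg_iff (hw : ¬ Summable fun i => weight K (F i)) : D.SatoTate μ ↔
    ∀ f, IsTest f → ∀ η : ℝ, 0 < η → ∀ᶠ m in atTop, ∀ᶠ N in atTop,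
      ∑ i ∈ Finset.range m, weight K (F i) * |D.disc (F i) μ f N| ≤
        η * ∑ i ∈ Finset.range m, weight K (F i) :=
  ⟨fun h _ hf _ hη => law_avg μ D F hF hw h hf hη,
    fun h => avg_law μ D F hF hw fun f hf η hη => (h f hf η hη).frequently⟩

/-- **Descent from infinitely many fields.** -/
theorem descent (hw : ¬ Summable fun i => weight K (F i)) (h : ∀ i, D.SatoTateOver (F i) μ) :
    D.SatoTate μ := by
  refine avg_law μ D F hF hw fun f hf η hη => ?_
  refine Eventually.frequently ?_
  filter_upwards [(weights_atTop F hw).eventually_gt_atTop 0] with m hm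
  have h1 : Tendsto (fun N => ∑ i ∈ Finset.range m, weight K (F i) * |D.disc (F i) μ f N|) atTop
      (𝓝 (∑ i ∈ Finset.range m, weight K (F i) * |0|)) :=
    tendsto_finsetSum _ fun i _ => ((h i f hf.toIsClassFunction).abs).const_mul _
  simp only [abs_zero, mul_zero, Finset.sum_const_zero] at h1
  exact (h1.eventually_lt_const (show (0 : ℝ) < η * ∑ i ∈ Finset.range m, weight K (F i) by
    positivity)).mono fun N hN => hN.le

end

section
variable {K : Type} [Field K] [NumberField K]

/-- functions of the permutations with mean square zero -/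
theorem mean_sq_zero {T : Type} [Group T] (Θ : GK K →* T) (hΘ : IsOpen (Θ.ker : Set (GK K)))
    (g : T → ℝ) (hg : ∀ a b, g (Θ a * Θ b * (Θ a)⁻¹) = g (Θ b)) (h0 : ∀ t, 0 ≤ g t)
    (σ : HeightOneSpectrum (𝓞 K) → GK K) (hσ : ∀ v, IsFrob v (σ v))
    (h : Tendsto (av fun v => g (Θ (σ v))) atTop (𝓝 0)) (s : GK K) : g (Θ s) = 0 := by
  have hfin := finite_range Θ hΘ
  let _ : Fintype Θ.range := Fintype.ofFinite _
  have h1 := cheb_fin Θ hΘ g hg σ hσ
  have h2 := tendsto_nhds_unique h1 h
  have h3 : (Nat.card Θ.range : ℝ)⁻¹ ≠ 0 := by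
    have : (0 : ℝ) < Nat.card Θ.range := by exact_mod_cast Nat.card_pos
    positivity
  have h4 := (mul_eq_zero.1 h2).resolve_left h3
  rw [finsum_eq_sum_of_fintype] at h4
  exact (Finset.sum_eq_zero_iff_of_nonneg fun t _ => h0 t.1).1 h4 ⟨Θ s, s, rfl⟩ (Finset.mem_univ _)

/-- **Doubly transitive extensions with different normal closures are independent.** -/
theorem indep_of_two {ι : Type} (F : ι → Type) [∀ i, Field (F i)] [∀ i, NumberField (F i)]
    [∀ i, Algebra K (F i)] (h2 : ∀ i, numFields K (F i) (F i) = 2)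
    (hk : ∀ i j, i ≠ j → (perm K (F i)).ker ≠ (perm K (F j)).ker) : Independent K F := by
  intro i j hij
  choose σ hσ using exists_isFrob (F := K)
  have h11 := gram σ hσ (F i) (F i)
  have h12 := gram σ hσ (F i) (F j)
  have h22 := gram σ hσ (F j) (F j)
  have hb := (h11.sub (h12.const_mul 2)).add h22
  have hb' : Tendsto (av fun v => ((fixc K (F i) (σ v) : ℝ) - fixc K (F j) (σ v)) ^ 2) atTop
      (𝓝 (4 - 2 * (numFields K (F i) (F j) : ℝ))) := by
    have e : ((numFields K (F i) (F i) : ℝ) - 1) - 2 * ((numFields K (F i) (F j) : ℝ) - 1) +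
        ((numFields K (F j) (F j) : ℝ) - 1) = 4 - 2 * (numFields K (F i) (F j) : ℝ) := by
      rw [h2 i, h2 j]
      push_cast
      ring
    rw [e] at hb
    refine hb.congr fun N => ?_
    rw [← av_mul, ← av_sub, ← av_add]
    congr 1
    funext v
    ring
  have h3 : (0 : ℝ) ≤ 4 - 2 * (numFields K (F i) (F j) : ℝ) :=
    ge_of_tendsto' hb' fun N => av_nonneg (fun v => sq_nonneg _) N
  have h4 : numFields K (F i) (F j) ≤ 2 := by
    have : (numFields K (F i) (F j) : ℝ) ≤ 2 := by linarith
    exact_mod_cast this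
  have h5 : numFields K (F i) (F j) ≠ 2 := by
    intro h
    rw [h] at hb'
    have e : (4 : ℝ) - 2 * ((2 : ℕ) : ℝ) = 0 := by norm_num
    rw [e] at hb'
    have hopen := act_open K (F i) (F j)
    -- all numbers of fixed points agree
    have h6 : ∀ s : GK K, fixc K (F i) s = fixc K (F j) s := by
      intro s
      have hop : IsOpen ((((perm K (F i)).prod (perm K (F j))).ker : Subgroup (GK K)) :
          Set (GK K)) := prod_open (F j) (perm K (F i)) (perm_open K (F i))
      have h7 := mean_sq_zero ((perm K (F i)).prod (perm K (F j))) hop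
        (fun t => ((Nat.card {x // t.1 x = x} : ℝ) - Nat.card {x // t.2 x = x}) ^ 2) (by
          intro a b
          rw [Prod.fst_mul, Prod.fst_mul, Prod.fst_inv, Prod.snd_mul, Prod.snd_mul, Prod.snd_inv,
            fixc_conj, fixc_conj]) (fun t => sq_nonneg _) σ hσ hb' s
      have h8 := pow_eq_zero_iff (two_ne_zero) |>.1 h7
      have h9 : (Nat.card {x // perm K (F i) s x = x} : ℝ) =
          Nat.card {x // perm K (F j) s x = x} := sub_eq_zero.1 h8
      exact_mod_cast h9
    apply hk i j hij
    -- the kernel consists of the elements with the same number of fixed points as `1`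
    have h10 : ∀ (l : ι) (s : GK K), s ∈ (perm K (F l)).ker ↔ fixc K (F l) s = fixc K (F l) 1 := by
      intro l s
      have hone : fixc K (F l) 1 = Nat.card (F l →ₐ[K] AlgebraicClosure K) := by
        unfold fixc
        rw [map_one]
        exact Nat.card_congr (Equiv.subtypeUnivEquiv fun _ => rfl)
      rw [MonoidHom.mem_ker, hone]
      constructor
      · intro h
        unfold fixc
        rw [h]
        exact Nat.card_congr (Equiv.subtypeUnivEquiv fun _ => rfl)
      · intro h
        refine Equiv.ext fun x => ?_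
        by_contra hx
        have h11 : Nat.card {x // perm K (F l) s x = x} < Nat.card (F l →ₐ[K] AlgebraicClosure K) := by
          classical
          let _ : Fintype (F l →ₐ[K] AlgebraicClosure K) := Fintype.ofFinite _
          rw [Nat.card_eq_fintype_card, Nat.card_eq_fintype_card]
          exact Fintype.card_subtype_lt hx
        exact absurd h h11.ne
    ext s
    rw [h10 i s, h10 j s, h6 s, h6 1]
  have h6 : numFields K (F i) (F j) ≠ 0 := by
    obtain ⟨p⟩ : Nonempty (Pairs K (F i) (F j)) := ⟨(emb K (F i), emb K (F j))⟩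
    have hfin : Finite (MaximalSpectrum (F i ⊗[K] F j)) :=
      Finite.of_surjective (toMax K (F i) (F j)) (toMax_surj K (F i) (F j))
    have : Nonempty (MaximalSpectrum (F i ⊗[K] F j)) := ⟨toMax K (F i) (F j) p⟩
    exact Nat.card_pos.ne'
  omega

end

end Pool.Agent.Helper644_ST
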