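import Pool.Agent.Helper644_ST.Transfer

/-! Chebotarev's theorem for class functions of a finite image of the Galois group, and a formula of
Burnside type. -/

set_option autoImplicit false

namespace Pool.Agent.Helper644_ST

open NumberField IsDedekindDomain Filter Topology MeasureTheory
open Pool.Agent.W401.Cheb (GK IsFrob)
open Pool.Agent.W540.BE (upto nm mem_upto exists_isFrob cheb_mean)

section
variable {K : Type} [Field K] [NumberField K]

theorem finite_range {T : Type} [Group T] (Θ : GK K →* T) (hΘ : IsOpen (Θ.ker : Set (GK K))) :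
    Finite Θ.range := by
  have : Finite (GK K ⧸ Θ.ker) := Subgroup.quotient_finite_of_isOpen _ hΘ
  exact Finite.of_equiv _ (QuotientGroup.quotientKerEquivRange Θ).toEquiv

/-- **Chebotarev's theorem** for class functions of a finite image. -/
theorem cheb_fin {T : Type} [Group T] (Θ : GK K →* T) (hΘ : IsOpen (Θ.ker : Set (GK K)))
    (g : T → ℝ) (hg : ∀ a b, g (Θ a * Θ b * (Θ a)⁻¹) = g (Θ b))
    (σ : HeightOneSpectrum (𝓞 K) → GK K) (hσ : ∀ v, IsFrob v (σ v)) :
    Tendsto (fun N => (∑ v ∈ upto K N, g (Θ (σ v))) / (Nat.primeCounting N : ℝ)) atTop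
      (𝓝 ((Nat.card Θ.range : ℝ)⁻¹ * ∑ᶠ t : Θ.range, g t)) := by
  classical
  have hfin : Finite (GK K ⧸ Θ.ker) := Subgroup.quotient_finite_of_isOpen _ hΘ
  have hfin' : Finite Θ.range := finite_range Θ hΘ
  let _ : Fintype (GK K ⧸ Θ.ker) := Fintype.ofFinite _
  let _ : Fintype Θ.range := Fintype.ofFinite _
  have hout : ∀ s : GK K, Θ (QuotientGroup.mk s : GK K ⧸ Θ.ker).out = Θ s := by
    intro s
    have h1 : (QuotientGroup.mk (QuotientGroup.mk s : GK K ⧸ Θ.ker).out :
        GK K ⧸ Θ.ker) = QuotientGroup.mk s := QuotientGroup.out_eq' _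
    rw [QuotientGroup.eq, MonoidHom.mem_ker, map_mul, map_inv] at h1
    exact (inv_mul_eq_one.1 h1)
  have h1 := cheb_mean Θ.ker hΘ (fun q => ((g (Θ q.out) : ℝ) : ℂ)) (by
    intro a s
    obtain ⟨a, rfl⟩ := QuotientGroup.mk_surjective a
    obtain ⟨s, rfl⟩ := QuotientGroup.mk_surjective s
    rw [← QuotientGroup.mk_inv, ← QuotientGroup.mk_mul, ← QuotientGroup.mk_mul, hout, hout,
      map_mul, map_mul, map_inv, hg]) σ hσ
  have h2 : (Nat.card (GK K ⧸ Θ.ker) : ℂ)⁻¹ * ∑ᶠ q : GK K ⧸ Θ.ker, ((g (Θ q.out) : ℝ) : ℂ) =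
      (((Nat.card Θ.range : ℝ)⁻¹ * ∑ᶠ t : Θ.range, g t : ℝ) : ℂ) := by
    have e := QuotientGroup.quotientKerEquivRange Θ
    rw [Nat.card_congr (QuotientGroup.quotientKerEquivRange Θ).toEquiv,
      finsum_eq_sum_of_fintype, finsum_eq_sum_of_fintype]
    push_cast
    congr 1
    refine Fintype.sum_equiv (QuotientGroup.quotientKerEquivRange Θ).toEquiv _ _ fun q => ?_
    obtain ⟨s, rfl⟩ := QuotientGroup.mk_surjective q
    rw [hout]
    rfl
  rw [h2] at h1
  have h3 := (Complex.continuous_re.tendsto _).comp h1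
  rw [Complex.ofReal_re] at h3
  refine h3.congr fun N => ?_
  simp only [Function.comp]
  have h4 : (∑ v ∈ upto K N, ((g (Θ (QuotientGroup.mk (σ v) : GK K ⧸ Θ.ker).out) : ℝ) : ℂ)) /
      (Nat.primeCounting N : ℂ) =
      (((∑ v ∈ upto K N, g (Θ (σ v))) / (Nat.primeCounting N : ℝ) : ℝ) : ℂ) := by
    push_cast
    congr 1
    exact Finset.sum_congr rfl fun v _ => by rw [hout]
  rw [h4, Complex.ofReal_re]

end

section
variable {Γ Y Q : Type} [Group Γ] [Group Q]

/-- sums over a group and over an image -/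
theorem sum_image [Finite Γ] (ρ : Γ →* Q) (H : Subgroup Γ) (E : Q → ℝ) :
    (Nat.card H : ℝ)⁻¹ * ∑ᶠ h : H, E (ρ h) =
      (Nat.card (H.map ρ) : ℝ)⁻¹ * ∑ᶠ q : H.map ρ, E q := by
  classical
  let _ : Fintype Γ := Fintype.ofFinite _
  let f : H →* H.map ρ := (ρ.comp H.subtype).codRestrict (H.map ρ) fun h => ⟨h.1, h.2, rfl⟩
  have hf : Function.Surjective f := by
    rintro ⟨_, h, hh, rfl⟩
    exact ⟨⟨h, hh⟩, rfl⟩
  have hfin : Finite (H.map ρ) := Finite.of_surjective f hf
  let _ : Fintype (H.map ρ) := Fintype.ofFinite _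
  have hk : ∀ q : H.map ρ, Nat.card {h : H // f h = q} = Nat.card f.ker := by
    intro q
    obtain ⟨h0, rfl⟩ := hf q
    refine Nat.card_congr
      { toFun := fun g => ⟨h0⁻¹ * g.1, by
          rw [MonoidHom.mem_ker, map_mul, map_inv, g.2, inv_mul_cancel]⟩
        invFun := fun k => ⟨h0 * k.1, by
          rw [map_mul, (MonoidHom.mem_ker).1 k.2, mul_one]⟩
        left_inv := fun g => Subtype.ext (by simp)
        right_inv := fun k => Subtype.ext (by simp) }
  have hsum : ∀ e : H.map ρ → ℝ, ∑ h : H, e (f h) = Nat.card f.ker * ∑ q, e q := by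
    intro e
    rw [← Finset.sum_fiberwise_of_maps_to (s := Finset.univ) (t := Finset.univ) (g := f)
      (fun h _ => Finset.mem_univ _), Finset.mul_sum]
    refine Finset.sum_congr rfl fun q _ => ?_
    rw [Finset.sum_congr rfl fun h hh => by rw [(Finset.mem_filter.1 hh).2], Finset.sum_const,
      nsmul_eq_mul, ← hk q, Nat.card_eq_fintype_card, Fintype.card_subtype]
  have hcard : (Nat.card H : ℝ) = Nat.card f.ker * Nat.card (H.map ρ) := by
    have := hsum fun _ => 1
    simp only [Finset.sum_const, nsmul_eq_mul, mul_one, Finset.card_univ] at this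
    rw [← Nat.card_eq_fintype_card, ← Nat.card_eq_fintype_card] at this
    exact this
  have hk0 : (Nat.card f.ker : ℝ) ≠ 0 := by exact_mod_cast Nat.card_pos.ne'
  rw [finsum_eq_sum_of_fintype, finsum_eq_sum_of_fintype]
  have h1 : ∑ h : H, E (ρ h) = Nat.card f.ker * ∑ q : H.map ρ, E q := hsum fun q => E q
  rw [h1, hcard, mul_inv]
  field_simp

/-- **A formula of Burnside type.** -/
theorem burn [Finite Γ] [Finite Y] (a : Γ →* Equiv.Perm Y) (ht : ∀ x y, ∃ g, a g x = y)
    (ρ : Γ →* Q) (E : Q → ℝ) (hE : ∀ s t, E (s * t * s⁻¹) = E t) (y0 : Y) (H : Subgroup Γ)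
    (hH : ∀ g, g ∈ H ↔ a g y0 = y0) :
    (Nat.card Γ : ℝ)⁻¹ * ∑ᶠ g : Γ, (Nat.card {y // a g y = y} : ℝ) * E (ρ g) =
      (Nat.card (H.map ρ) : ℝ)⁻¹ * ∑ᶠ q : H.map ρ, E q := by
  classical
  let _ : Fintype Γ := Fintype.ofFinite _
  let _ : Fintype Y := Fintype.ofFinite _
  rw [← sum_image ρ H E]
  have key : ∀ e : Γ → ℝ, (∀ s t, e (s * t * s⁻¹) = e t) →
      ∑ g : Γ, (Nat.card {y // a g y = y} : ℝ) * e g = Fintype.card Y * ∑ h : H, e h := by
    intro e he
    have h1 : ∀ g : Γ, (Nat.card {y // a g y = y} : ℝ) * e g =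
        ∑ y : Y, if a g y = y then e g else 0 := by
      intro g
      rw [← Finset.sum_filter, Finset.sum_const, nsmul_eq_mul, Nat.card_eq_fintype_card,
        Fintype.card_subtype]
    rw [Finset.sum_congr rfl fun g _ => h1 g, Finset.sum_comm]
    have h2 : ∀ y : Y, (∑ g : Γ, if a g y = y then e g else 0) = ∑ h : H, e h := by
      intro y
      obtain ⟨γ, hγ⟩ := ht y0 y
      rw [← (MulAut.conj γ).toEquiv.sum_comp]
      have h3 : ∀ g : Γ, (if a ((MulAut.conj γ).toEquiv g) y = y then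
          e ((MulAut.conj γ).toEquiv g) else 0) = if g ∈ H then e g else 0 := by
        intro g
        have e1 : (MulAut.conj γ).toEquiv g = γ * g * γ⁻¹ := rfl
        rw [e1, he]
        congr 1
        have e2 : (a γ)⁻¹ ((a γ) y0) = y0 := (a γ).symm_apply_apply y0
        rw [hH, map_mul, map_mul, map_inv, Equiv.Perm.mul_apply, Equiv.Perm.mul_apply, ← hγ,
          e2, (a γ).injective.eq_iff]
      rw [Finset.sum_congr rfl fun g _ => h3 g, ← Finset.sum_filter]
      refine (Finset.sum_subtype _ (fun x => ?_) _)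
      rw [Finset.mem_filter]
      simp
    rw [Finset.sum_congr rfl fun y _ => h2 y, Finset.sum_const, nsmul_eq_mul, Finset.card_univ]
  have hne : Nonempty Y := ⟨y0⟩
  have hcard : (Nat.card Γ : ℝ) = Fintype.card Y * Nat.card H := by
    have h1 := key (fun _ => 1) fun _ _ => rfl
    simp only [mul_one, Finset.sum_const, nsmul_eq_mul, Finset.card_univ] at h1
    let _ : MulAction Γ Y := MulAction.compHom Y a
    have hpre : MulAction.IsPretransitive Γ Y := ⟨ht⟩
    have hone : Subsingleton (Quotient (MulAction.orbitRel Γ Y)) :=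
      (MulAction.pretransitive_iff_subsingleton_quotient Γ Y).1 hpre
    let _ : Fintype (Quotient (MulAction.orbitRel Γ Y)) := Fintype.ofFinite _
    have hne : Nonempty (Quotient (MulAction.orbitRel Γ Y)) :=
      ⟨Quotient.mk _ (Classical.arbitrary Y)⟩
    have h3 := MulAction.sum_card_fixedBy_eq_card_orbits_mul_card_group Γ Y
    have h4 : Fintype.card (Quotient (MulAction.orbitRel Γ Y)) = 1 := by
      rw [Fintype.card_eq_one_iff]
      exact ⟨hne.some, fun y => Subsingleton.elim _ _⟩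
    rw [h4, one_mul] at h3
    have h5 : ∑ g : Γ, (Nat.card {y // a g y = y} : ℝ) = Fintype.card Γ := by
      rw [← h3, Nat.cast_sum]
      refine Finset.sum_congr rfl fun g _ => ?_
      rw [Nat.card_eq_fintype_card]
      congr 1
    rw [h5] at h1
    rw [Nat.card_eq_fintype_card, h1, Nat.card_eq_fintype_card]
  have hY : (Fintype.card Y : ℝ) ≠ 0 := by exact_mod_cast Fintype.card_ne_zero
  rw [finsum_eq_sum_of_fintype, finsum_eq_sum_of_fintype,
    key (fun g => E (ρ g)) fun s t => by rw [map_mul, map_mul, map_inv, hE], hcard, mul_inv]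
  field_simp

end

end Pool.Agent.Helper644_ST
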