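import Pool.Agent.Helper644_ST.Defs
import Pool.Agent.W353.NF.Emb
import Pool.Agent.W540.BE.NF

/-! The primes of prime norm of `F` above a prime of `K`. -/

set_option autoImplicit false

namespace Pool.Agent.Helper644_ST

open NumberField IsDedekindDomain Filter Topology MeasureTheory
open Pool.Agent.W401.Cheb (GK IsFrob)
open Pool.Agent.W540.BE (upto nm mem_upto)
open Pool.Agent.W352.ChAbs (sqrt_div_pi const_div_pi decomp)

section
variable {F : Type} [Field F] [NumberField F]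

/-- the reduction modulo a prime of prime norm -/
theorem exists_hom (w : HeightOneSpectrum (𝓞 F)) {p : ℕ} [Fact p.Prime]
    (hw : Ideal.absNorm w.asIdeal = p) : ∃ ψ : 𝓞 F →+* ZMod p, RingHom.ker ψ = w.asIdeal := by
  have hwm : w.asIdeal.IsMaximal := w.isMaximal
  have : Finite (𝓞 F ⧸ w.asIdeal) := Ideal.finiteQuotientOfFreeOfNeBot _ w.ne_bot
  let _ : Fintype (𝓞 F ⧸ w.asIdeal) := Fintype.ofFinite _
  have hcard : Fintype.card (𝓞 F ⧸ w.asIdeal) = p := by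
    rw [← Nat.card_eq_fintype_card, ← hw, Ideal.absNorm_apply, Submodule.cardQuot_apply]
  let e : ZMod p ≃+* (𝓞 F ⧸ w.asIdeal) := ZMod.ringEquivOfPrime _ Fact.out hcard
  refine ⟨(e.symm : (𝓞 F ⧸ w.asIdeal) →+* ZMod p).comp (Ideal.Quotient.mk w.asIdeal), ?_⟩
  ext a
  rw [RingHom.mem_ker, RingHom.comp_apply]
  change e.symm (Ideal.Quotient.mk w.asIdeal a) = 0 ↔ _
  rw [map_eq_zero_iff e.symm e.symm.injective, Ideal.Quotient.eq_zero_iff_mem]

theorem hom_ext_of_ker {A : Type*} [CommRing A] {p : ℕ} {φ ψ : A →+* ZMod p}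
    (h : RingHom.ker φ = RingHom.ker ψ) : φ = ψ := by
  ext x
  obtain ⟨n, hn⟩ := ZMod.intCast_surjective (φ x)
  have h1 : x - (n : A) ∈ RingHom.ker φ := by
    rw [RingHom.mem_ker, map_sub, map_intCast, hn, sub_self]
  rw [h, RingHom.mem_ker, map_sub, map_intCast] at h1
  rw [← hn, ← sub_eq_zero.1 h1]

/-- the prime of a homomorphism -/
noncomputable def primeOf {p : ℕ} [Fact p.Prime] (ψ : 𝓞 F →+* ZMod p) :
    HeightOneSpectrum (𝓞 F) :=
  ⟨RingHom.ker ψ, RingHom.ker_isPrime ψ, by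
    intro h
    have h1 : ((p : ℕ) : 𝓞 F) ∈ RingHom.ker ψ := by
      rw [RingHom.mem_ker, map_natCast]
      exact ZMod.natCast_self _
    rw [h, Ideal.mem_bot] at h1
    exact (Fact.out : p.Prime).ne_zero (by exact_mod_cast h1)⟩

theorem norm_primeOf {p : ℕ} [Fact p.Prime] (ψ : 𝓞 F →+* ZMod p) :
    Ideal.absNorm (primeOf ψ).asIdeal = p :=
  Pool.Agent.W353.NF.absNorm_ker (v := primeOf ψ) ψ rfl

end

section
variable {K F : Type} [Field K] [NumberField K] [Field F] [NumberField F] [Algebra K F]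

theorem norm_under (w : HeightOneSpectrum (𝓞 F)) : Ideal.absNorm w.asIdeal =
    Ideal.absNorm (w.under (𝓞 K)).asIdeal ^ (w.under (𝓞 K)).asIdeal.inertiaDeg' w.asIdeal := by
  have : w.asIdeal.LiesOver (w.under (𝓞 K)).asIdeal := ⟨rfl⟩
  exact Ideal.absNorm_eq_pow_inertiaDeg'_of_liesOver w.asIdeal (w.under (𝓞 K)).asIdeal
    (w.under (𝓞 K)).isPrime (w.under (𝓞 K)).ne_bot

theorem deg_one (w : HeightOneSpectrum (𝓞 F)) (hw : (Ideal.absNorm w.asIdeal).Prime) :
    (w.under (𝓞 K)).asIdeal.inertiaDeg' w.asIdeal = 1 ∧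
      Ideal.absNorm (w.under (𝓞 K)).asIdeal = Ideal.absNorm w.asIdeal := by
  have h := norm_under (K := K) w
  rw [h] at hw
  have h1 := hw.eq_one_of_pow
  refine ⟨h1, ?_⟩
  rw [h, h1, pow_one]

/-- **The number of primes of prime norm above a prime.** -/
theorem card_above (v : HeightOneSpectrum (𝓞 K)) (e : 𝓞 K)
    (he : ∀ Q : Ideal (𝓞 (AlgebraicClosure K)),
      algebraMap (𝓞 K) (𝓞 (AlgebraicClosure K)) e ∉ Q →
      ∀ i j : F →ₐ[K] AlgebraicClosure K, (∀ a : 𝓞 F,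
        Pool.Agent.W353.NF.oi i a - Pool.Agent.W353.NF.oi j a ∈ Q) → i = j)
    (hev : e ∉ v.asIdeal) (σ : GK K) (hσ : IsFrob v σ)
    (hv : (Ideal.absNorm v.asIdeal).Prime) :
    Nat.card {w : HeightOneSpectrum (𝓞 F) // w.under (𝓞 K) = v ∧
      (Ideal.absNorm w.asIdeal).Prime} =
    Nat.card {i : F →ₐ[K] AlgebraicClosure K // perm K F σ i = i} := by
  classical
  obtain ⟨p, hp⟩ : ∃ p, Ideal.absNorm v.asIdeal = p := ⟨_, rfl⟩
  have : Fact p.Prime := ⟨hp ▸ hv⟩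
  obtain ⟨φ, hφ⟩ := exists_hom v hp
  have h1 := Pool.Agent.W353.NF.card_ext (F := F) v e he hev σ hσ φ hφ
  have h2 : Nat.card {i : F →ₐ[K] AlgebraicClosure K // perm K F σ i = i} =
      Nat.card {ψ : 𝓞 F →+* ZMod p // ψ.comp (algebraMap (𝓞 K) (𝓞 F)) = φ} := h1
  rw [h2]
  symm
  refine Nat.card_eq_of_bijective (fun ψ => ⟨primeOf ψ.1, ?_, ?_⟩) ⟨?_, ?_⟩
  · apply HeightOneSpectrum.ext
    change Ideal.comap (algebraMap (𝓞 K) (𝓞 F)) (RingHom.ker ψ.1) = v.asIdeal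
    rw [← hφ, RingHom.comap_ker]
    exact congrArg RingHom.ker ψ.2
  · rw [norm_primeOf]
    exact Fact.out
  · intro ψ ψ' h
    apply Subtype.ext
    apply hom_ext_of_ker
    have := congrArg (fun z : {w : HeightOneSpectrum (𝓞 F) // w.under (𝓞 K) = v ∧
      (Ideal.absNorm w.asIdeal).Prime} => z.1.asIdeal) h
    exact this
  · rintro ⟨w, hw, hw2⟩
    have h3 := (deg_one (K := K) w hw2).2
    rw [hw, hp] at h3
    obtain ⟨ψ, hψ⟩ := exists_hom w h3.symm
    refine ⟨⟨ψ, ?_⟩, ?_⟩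
    · apply hom_ext_of_ker
      rw [hφ, ← RingHom.comap_ker, hψ, ← hw]
      rfl
    · apply Subtype.ext
      apply HeightOneSpectrum.ext
      exact hψ

end

end Pool.Agent.Helper644_ST
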