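import Pool.Agent.W401.Cheb.AbsDefs

/-!
# The Sato-Tate law over extension fields: definitions

`K` is a number field and `A / K` an abelian variety, `G = ST(A)` its Sato-Tate group with Haar
probability measure `μ`.  The component group of `G` is a quotient of the absolute Galois group of `K`,
and for every number field `F ⊇ K` the Sato-Tate group of `A_F` is the union of the components of `G`
which belong to the absolute Galois group of `F`.  If `w` is a prime of `F` of residue degree `f` over
the prime `v` of `K`, then the class of the Frobenius at `w` is the class of `x_v ^ f`.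
-/

set_option autoImplicit false

namespace Pool.Agent.Helper644_ST

open NumberField IsDedekindDomain Filter Topology MeasureTheory
open Pool.Agent.W401.Cheb (GK IsFrob)

/-- The mean value of a function on a finite type. -/
noncomputable def mean {X : Type} (φ : X → ℝ) : ℝ := (∑ᶠ x, φ x) / Nat.card X

section
variable (K F : Type) [Field K] [Field F] [Algebra K F]

/-- The permutation `i ↦ σ ∘ i` of the embeddings over `K` of `F` into the algebraic closure of `K`,
for `σ` in the absolute Galois group of `K`. -/
noncomputable def perm : GK K →* Equiv.Perm (F →ₐ[K] AlgebraicClosure K) where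
  toFun σ :=
    { toFun := fun i => (σ : AlgebraicClosure K →ₐ[K] AlgebraicClosure K).comp i
      invFun := fun i => ((σ⁻¹ : GK K) : AlgebraicClosure K →ₐ[K] AlgebraicClosure K).comp i
      left_inv := fun i => AlgHom.ext fun x => σ.symm_apply_apply (i x)
      right_inv := fun i => AlgHom.ext fun x => σ.apply_symm_apply (i x) }
  map_one' := Equiv.ext fun _ => AlgHom.ext fun _ => rfl
  map_mul' _ _ := Equiv.ext fun _ => AlgHom.ext fun _ => rfl

/-- The proportion of the permutations without fixed point in the group of all permutations of the
embeddings of `F` given by the absolute Galois group of `K`, the Galois group of the normal closure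
of `F / K`. -/
noncomputable def derangements : ℝ :=
  (Nat.card {g : (perm K F).range // ∀ i, g.1 i ≠ i} : ℝ) / Nat.card (perm K F).range

end

/-- The number `∑ c_i fix_i`, where `fix_i` is the number of the fixed points of the permutation `g i`. -/
noncomputable def fixSum {ι : Type} [Fintype ι] {X : ι → Type} (c : ι → ℝ)
    (g : ∀ i, Equiv.Perm (X i)) : ℝ :=
  ∑ i, c i * (Nat.card {j // g i j = j} : ℝ)

/-- The mean value of `|∑ c_i fix_i|`, where `fix_i` is the number of the embeddings of `F i` fixed by
`σ`, over the group of all families of permutations `(perm K (F i) σ)_i`, the Galois group of the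
normal closure over `K` of the compositum of the `F i`. -/
noncomputable def meanAbs (K : Type) [Field K] {ι : Type} [Fintype ι] (F : ι → Type)
    [∀ i, Field (F i)] [∀ i, Algebra K (F i)] (c : ι → ℝ) : ℝ :=
  mean fun g : (MonoidHom.pi fun i => perm K (F i)).range => |fixSum c g.1|

/-- `F = K(α)` for a root `α` of `X ^ p - a`, `a ∈ K`, and the degree is the prime number `p`. -/
def IsRadicalOfDegree (K F : Type) [Field K] [Field F] [Algebra K F] (p : ℕ) : Prop :=
  p.Prime ∧ Module.finrank K F = p ∧
    ∃ α : F, α ∉ Set.range (algebraMap K F) ∧ α ^ p ∈ Set.range (algebraMap K F)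

/-- The average of `φ` over the primes of `F` of norm at most `N`. -/
noncomputable def avg {F : Type} [Field F] [NumberField F] (φ : HeightOneSpectrum (𝓞 F) → ℝ)
    (N : ℕ) : ℝ :=
  (∑ᶠ w : {w : HeightOneSpectrum (𝓞 F) // Ideal.absNorm w.asIdeal ≤ N}, φ w.1) /
    (Nat.card {w : HeightOneSpectrum (𝓞 F) // Ideal.absNorm w.asIdeal ≤ N} : ℝ)

/-- Continuous functions on the space of the classes of `G`. -/
structure IsClassFunction {G : Type} [Group G] [TopologicalSpace G] (f : G → ℝ) : Prop where
  continuous : Continuous f
  conj : ∀ g h, f (h * g * h⁻¹) = f g

/-- Continuous functions on the space of the classes of `G` with values between `0` and `1`. -/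
structure IsTest {G : Type} [Group G] [TopologicalSpace G] (f : G → ℝ) : Prop extends
    IsClassFunction f where
  nonneg : ∀ g, 0 ≤ f g
  le_one : ∀ g, f g ≤ 1

/-- The data of the problem over `K`: the Sato-Tate group `G`, its (finite) component group `Q` or
any finite quotient of it with the projection `π`, the homomorphism `r` of the absolute Galois group
of `K` onto `Q`, and for every prime `v` of `K` an element `x v` of the class of the normalized
Frobenius at `v` (an arbitrary element at finitely many `v`).  At almost all `v` the class of `π (x v)`
is the class of the Frobenius elements at `v`. -/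
structure Datum (K : Type) [Field K] [NumberField K] (G : Type) [Group G] [TopologicalSpace G] where
  Q : Type
  [group : Group Q]
  [finite : Finite Q]
  π : G →* Q
  π_surjective : Function.Surjective π
  π_open : IsOpen (π.ker : Set G)
  r : GK K →* Q
  r_surjective : Function.Surjective r
  r_open : IsOpen (r.ker : Set (GK K))
  x : HeightOneSpectrum (𝓞 K) → G
  frob : ∀ᶠ v in cofinite, ∀ σ : GK K, IsFrob v σ → IsConj (π (x v)) (r σ)

attribute [instance] Datum.group Datum.finite

namespace Datum

variable {K : Type} [Field K] [NumberField K] {G : Type} [Group G] [TopologicalSpace G]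
  (D : Datum K G) (F : Type) [Field F] [NumberField F] [Algebra K F]

/-- The absolute Galois group of `F` as a subgroup of the absolute Galois group of `K`, for one
embedding of `F` into the algebraic closure of `K`. -/
noncomputable def galois (K : Type) [Field K] (F : Type) [Field F] [Algebra K F]
    [Algebra.IsAlgebraic K F] : Subgroup (GK K) :=
  (IsAlgClosed.lift : F →ₐ[K] AlgebraicClosure K).fieldRange.fixingSubgroup

/-- The Sato-Tate group over `F`: the components of `G` which belong to the absolute Galois group
of `F`. -/
noncomputable def groupOver : Subgroup G := ((galois K F).map D.r).comap D.π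

/-- The element `x_v ^ f` of the class of the normalized Frobenius at the prime `w` of `F`, where `f`
is the residue degree of `w` over the prime `v` of `K`. -/
noncomputable def frobenius (w : HeightOneSpectrum (𝓞 F)) : G :=
  D.x (w.under (𝓞 K)) ^ (w.under (𝓞 K)).asIdeal.inertiaDeg' w.asIdeal

/-- The families `(r σ, (perm K (F i) σ)_i)`, the elements of the Galois group over `K` of the
compositum of the normal closures of the `F i` and the field which belongs to `Q`. -/
def Families {ι : Type} (F : ι → Type) [∀ i, Field (F i)] [∀ i, Algebra K (F i)] : Type :=
  (D.r.prod (MonoidHom.pi fun i => perm K (F i))).range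

/-- The first component of a family. -/
def first {ι : Type} (F : ι → Type) [∀ i, Field (F i)] [∀ i, Algebra K (F i)]
    (g : D.Families F) : D.Q := g.1.1

/-- The value of `∑ c_i fix_i` at a family. -/
noncomputable def total {ι : Type} [Fintype ι] (F : ι → Type) [∀ i, Field (F i)]
    [∀ i, Algebra K (F i)] (c : ι → ℝ) (g : D.Families F) : ℝ := fixSum c g.1.2

/-- The mean value of `∑ c_i fix_i` over the families with first component `q`. -/
noncomputable def condMean {ι : Type} [Fintype ι] (F : ι → Type) [∀ i, Field (F i)]
    [∀ i, Algebra K (F i)] (c : ι → ℝ) (q : D.Q) : ℝ :=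
  mean fun g : {g : D.Families F // D.first F g = q} => D.total F c g.1

/-- The mean absolute deviation of `∑ c_i fix_i` from its mean value over the elements with the same
image in `Q`. -/
noncomputable def deviation {ι : Type} [Fintype ι] (F : ι → Type) [∀ i, Field (F i)]
    [∀ i, Algebra K (F i)] (c : ι → ℝ) : ℝ :=
  mean fun g : D.Families F => |D.total F c g - D.condMean F c (D.first F g)|

variable [MeasurableSpace G] (μ : Measure G)

/-- The discrepancy over `F`: the average of `f` at the Frobenius classes of the primes of `F` of norm
at most `N`, minus the mean value of `f` on the Sato-Tate group over `F`. -/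
noncomputable def disc (f : G → ℝ) (N : ℕ) : ℝ :=
  avg (fun w : HeightOneSpectrum (𝓞 F) => f (D.frobenius F w)) N - ⨍ g in (D.groupOver F : Set G), f g ∂μ

/-- The Frobenius classes of the primes of `F` are equidistributed in the space of classes of `G`, for
the image of the Haar measure of the Sato-Tate group over `F`. -/
def SatoTateOver : Prop := ∀ f : G → ℝ, IsClassFunction f → Tendsto (D.disc F μ f) atTop (𝓝 0)

/-- The Sato-Tate law over `K`: the classes of the `x v` are equidistributed for the image of the
Haar measure of `G`. -/
def SatoTate : Prop := ∀ f : G → ℝ, IsClassFunction f →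
  Tendsto (avg fun v : HeightOneSpectrum (𝓞 K) => f (D.x v)) atTop (𝓝 (∫ g, f g ∂μ))

end Datum

end Pool.Agent.Helper644_ST
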