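import Pool.Agent.Helper644_ST.Defs

/-! The mean values of a class function on the components of a compact group. -/

set_option autoImplicit false
set_option linter.unusedSectionVars false

namespace Pool.Agent.Helper644_ST

open NumberField IsDedekindDomain Filter Topology MeasureTheory
open Pool.Agent.W401.Cheb (GK IsFrob)

section
variable {G : Type} [Group G] [TopologicalSpace G] [IsTopologicalGroup G] [CompactSpace G]
  [MeasurableSpace G] [BorelSpace G] (μ : Measure G) [IsProbabilityMeasure μ] [μ.IsHaarMeasure]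
  {Q : Type} [Group Q] [Finite Q]

theorem integral_conj (φ : G → ℝ) (a : G) : ∫ g, φ (a * g * a⁻¹) ∂μ = ∫ g, φ g ∂μ := by
  have h1 : (Measure.map (MulAut.conj a) μ).IsHaarMeasure :=
    MulEquiv.isHaarMeasure_map μ (MulAut.conj a) (by
      change Continuous fun g => a * g * a⁻¹
      fun_prop) (by
      change Continuous fun g => a⁻¹ * g * a
      fun_prop)
  have hc : Continuous (MulAut.conj a : G → G) := by
    change Continuous fun g => a * g * a⁻¹
    fun_prop
  have h2 : IsProbabilityMeasure (Measure.map (MulAut.conj a) μ) :=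
    Measure.isProbabilityMeasure_map hc.aemeasurable
  have h3 : Measure.map (MulAut.conj a) μ = μ := Measure.isHaarMeasure_eq_of_isProbabilityMeasure _ _
  let e : G ≃ₜ G := (Homeomorph.mulLeft a).trans (Homeomorph.mulRight a⁻¹)
  have h4 := integral_map_equiv (μ := μ) e.toMeasurableEquiv φ
  have h5 : Measure.map e.toMeasurableEquiv μ = μ := h3
  rw [h5] at h4
  exact h4.symm

variable (π : G →* Q) (hs : Function.Surjective π) (ho : IsOpen (π.ker : Set G))

include ho in
theorem fiber_open (q : Q) : IsOpen (π ⁻¹' {q}) := by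
  by_cases h : ∃ g, π g = q
  · obtain ⟨g0, hg0⟩ := h
    have h1 : π ⁻¹' {q} = (fun g => g0⁻¹ * g) ⁻¹' (π.ker : Set G) := by
      ext g
      rw [Set.mem_preimage, Set.mem_preimage, Set.mem_singleton_iff, SetLike.mem_coe,
        MonoidHom.mem_ker, map_mul, map_inv, hg0, inv_mul_eq_one]
      exact eq_comm
    rw [h1]
    exact ho.preimage (by fun_prop)
  · have h1 : π ⁻¹' {q} = ∅ := by
      ext g
      rw [Set.mem_preimage, Set.mem_singleton_iff]
      exact ⟨fun h2 => h ⟨g, h2⟩, fun h2 => h2.elim⟩
    rw [h1]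
    exact isOpen_empty

include ho in
theorem cont_comp (u : Q → ℝ) : Continuous fun g => u (π g) := by
  have h1 : IsLocallyConstant (fun g => u (π g)) := by
    intro s
    have h2 : (fun g => u (π g)) ⁻¹' s = ⋃ q ∈ u ⁻¹' s, π ⁻¹' {q} := by
      ext g
      simp
    rw [h2]
    exact isOpen_biUnion fun q _ => fiber_open π ho q
  exact h1.continuous

omit [IsTopologicalGroup G] [μ.IsHaarMeasure] [Group G] in
theorem intg {φ : G → ℝ} (hφ : Continuous φ) : Integrable φ μ :=
  hφ.integrable_of_hasCompactSupport (HasCompactSupport.of_compactSpace φ)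

open Classical in
/-- the mean value on a component -/
noncomputable def comp (f : G → ℝ) (q : Q) : ℝ :=
  (Nat.card Q : ℝ) * ∫ g, (if π g = q then (1 : ℝ) else 0) * f g ∂μ

include ho in
theorem sum_comp (f : G → ℝ) (hf : Continuous f) (u : Q → ℝ) :
    (Nat.card Q : ℝ) * ∫ g, u (π g) * f g ∂μ = ∑ᶠ q : Q, u q * comp μ π f q := by
  classical
  let _ : Fintype Q := Fintype.ofFinite _
  rw [finsum_eq_sum_of_fintype]
  have h1 : ∀ g, u (π g) * f g = ∑ q, u q * ((if π g = q then (1 : ℝ) else 0) * f g) := by
    intro g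
    simp
  have h2 : ∀ q ∈ (Finset.univ : Finset Q), Integrable (fun g => u q *
      ((if π g = q then (1 : ℝ) else 0) * f g)) μ := by
    intro q _
    exact intg μ ((((cont_comp π ho fun t => if t = q then (1 : ℝ) else 0).mul hf)).const_mul _)
  rw [integral_congr_ae (Filter.Eventually.of_forall h1), integral_finsetSum _ h2,
    Finset.mul_sum]
  refine Finset.sum_congr rfl fun q _ => ?_
  rw [integral_const_mul]
  unfold comp
  ring

include hs in
omit [CompactSpace G] [IsProbabilityMeasure μ] [Finite Q] in
theorem comp_shift (f : G → ℝ) (hf : ∀ g, f g = 1) (q : Q) : comp μ π f q = comp μ π f 1 := by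
  classical
  obtain ⟨h, hh⟩ := hs q
  unfold comp
  congr 1
  rw [← integral_mul_left_eq_self (fun g => (if π g = q then (1 : ℝ) else 0) * f g) h]
  refine integral_congr_ae (Filter.Eventually.of_forall fun g => ?_)
  simp only
  rw [hf, hf, map_mul, hh]
  congr 1
  simp

include hs ho in
theorem comp_one (q : Q) : comp μ π (fun _ => 1) q = 1 := by
  classical
  let _ : Fintype Q := Fintype.ofFinite _
  have h1 := sum_comp μ π ho (fun _ => 1) continuous_const fun _ => 1
  rw [finsum_eq_sum_of_fintype, Finset.sum_congr rfl fun q _ => by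
    rw [comp_shift μ π hs (fun _ => 1) (fun _ => rfl) q]] at h1
  simp only [mul_one, integral_const, probReal_univ, smul_eq_mul, one_mul, Finset.sum_const,
    Finset.card_univ, nsmul_eq_mul] at h1
  rw [comp_shift μ π hs (fun _ => 1) (fun _ => rfl) q]
  have h0 : (Nat.card Q : ℝ) ≠ 0 := by exact_mod_cast Nat.card_pos.ne'
  rw [Nat.card_eq_fintype_card] at h1 h0
  field_simp at h1
  linarith

include hs in
omit [Finite Q] in
theorem comp_conj (f : G → ℝ) (hf : ∀ g h, f (h * g * h⁻¹) = f g) (s t : Q) :
    comp μ π f (s * t * s⁻¹) = comp μ π f t := by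
  classical
  obtain ⟨a, rfl⟩ := hs s
  unfold comp
  congr 1
  rw [← integral_conj μ (fun g => (if π g = π a * t * (π a)⁻¹ then (1 : ℝ) else 0) * f g) a]
  refine integral_congr_ae (Filter.Eventually.of_forall fun g => ?_)
  simp only
  rw [hf, map_mul, map_mul, map_inv]
  congr 2
  simp

include hs ho in
theorem comp_bd (f : G → ℝ) (hf : Continuous f) (h0 : ∀ g, 0 ≤ f g) (h1 : ∀ g, f g ≤ 1) (q : Q) :
    0 ≤ comp μ π f q ∧ comp μ π f q ≤ 1 := by
  classical
  have hc : Continuous fun g => if π g = q then (1 : ℝ) else 0 :=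
    cont_comp π ho fun t => if t = q then (1 : ℝ) else 0
  constructor
  · unfold comp
    refine mul_nonneg (Nat.cast_nonneg _) (integral_nonneg fun g => ?_)
    refine mul_nonneg ?_ (h0 g)
    split_ifs <;> norm_num
  · rw [← comp_one μ π hs ho q]
    unfold comp
    refine mul_le_mul_of_nonneg_left ?_ (Nat.cast_nonneg _)
    refine integral_mono (intg μ (hc.mul hf)) (intg μ (hc.mul continuous_const)) fun g => ?_
    simp only
    refine mul_le_mul_of_nonneg_left (h1 g) ?_
    split_ifs <;> norm_num

include hs ho in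
/-- the mean value on a union of components -/
theorem average_comap (f : G → ℝ) (hf : Continuous f) (T : Subgroup Q) :
    ⨍ g in (T.comap π : Set G), f g ∂μ = (Nat.card T : ℝ)⁻¹ * ∑ᶠ q : T, comp μ π f q := by
  classical
  let _ : Fintype Q := Fintype.ofFinite _
  have hmeas : MeasurableSet (T.comap π : Set G) := by
    have h2 : (T.comap π : Set G) = ⋃ q ∈ (T : Set Q), π ⁻¹' {q} := by
      ext g
      simp
    rw [h2]
    exact (isOpen_biUnion fun q _ => fiber_open π ho q).measurableSet
  have hT : ∀ φ : G → ℝ, Continuous φ → (Nat.card Q : ℝ) * ∫ g in (T.comap π : Set G), φ g ∂μ =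
      ∑ᶠ q : T, comp μ π φ q := by
    intro φ hφ
    rw [← integral_indicator hmeas]
    have h1 : ∀ g, (T.comap π : Set G).indicator φ g = (if π g ∈ T then (1 : ℝ) else 0) * φ g := by
      intro g
      by_cases h : π g ∈ T
      · rw [Set.indicator_of_mem (by exact h), if_pos h, one_mul]
      · rw [Set.indicator_of_notMem (by exact h), if_neg h, zero_mul]
    rw [integral_congr_ae (Filter.Eventually.of_forall h1),
      sum_comp μ π ho φ hφ fun q => if q ∈ T then (1 : ℝ) else 0, finsum_eq_sum_of_fintype,
      finsum_eq_sum_of_fintype]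
    have h2 : ∀ q : Q, (if q ∈ T then (1 : ℝ) else 0) * comp μ π φ q =
        if q ∈ T then comp μ π φ q else 0 := by
      intro q
      split_ifs <;> simp
    rw [Finset.sum_congr rfl fun q _ => h2 q, ← Finset.sum_filter]
    exact Finset.sum_subtype _ (fun x => by simp) _
  have h0 : (Nat.card Q : ℝ) ≠ 0 := by exact_mod_cast Nat.card_pos.ne'
  have hT0 : (Nat.card T : ℝ) ≠ 0 := by exact_mod_cast Nat.card_pos.ne'
  have e1 := hT f hf
  have e2 := hT (fun _ => 1) continuous_const
  rw [finsum_eq_sum_of_fintype, Finset.sum_congr rfl fun q _ => comp_one μ π hs ho q.1] at e2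
  simp only [Finset.sum_const, Finset.card_univ, nsmul_eq_mul, mul_one, integral_const,
    smul_eq_mul, measureReal_restrict_apply_univ] at e2
  rw [setAverage_eq, smul_eq_mul, ← e1]
  rw [← Nat.card_eq_fintype_card] at e2
  have e3 : μ.real (T.comap π : Set G) = (Nat.card T : ℝ) / Nat.card Q := by
    field_simp
    linarith
  rw [e3, inv_div]
  field_simp

end

end Pool.Agent.Helper644_ST
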