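import Pool.Agent.Helper644_ST.Cheb
import Pool.Agent.Helper644_ST.Haar

/-! The discrepancy over an extension as a weighted sum over the primes of the field. -/

set_option autoImplicit false
set_option linter.unusedSectionVars false

namespace Pool.Agent.Helper644_ST

open NumberField IsDedekindDomain Filter Topology MeasureTheory
open Pool.Agent.W401.Cheb (GK IsFrob)
open Pool.Agent.W540.BE (upto nm mem_upto exists_isFrob cheb_mean)
open Pool.Agent.W352.ChAbs (sqrt_div_pi const_div_pi decomp)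

section
variable (K F : Type) [Field K] [NumberField K] [Field F] [NumberField F] [Algebra K F]

/-- the kernel of the action is open -/
theorem perm_open : IsOpen ((perm K F).ker : Set (GK K)) := by
  have h1 : ((perm K F).ker : Set (GK K)) =
      ⋂ i : F →ₐ[K] AlgebraicClosure K, (i.fieldRange.fixingSubgroup : Set (GK K)) := by
    ext σ
    rw [SetLike.mem_coe, MonoidHom.mem_ker, Set.mem_iInter]
    constructor
    · intro h i
      rw [SetLike.mem_coe, IntermediateField.mem_fixingSubgroup_iff]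
      rintro _ ⟨x, rfl⟩
      have h2 : perm K F σ i = i := by rw [h]; rfl
      exact DFunLike.congr_fun h2 x
    · intro h
      refine Equiv.ext fun i => AlgHom.ext fun x => ?_
      have h2 := h i
      rw [SetLike.mem_coe, IntermediateField.mem_fixingSubgroup_iff] at h2
      exact h2 (i x) ⟨x, rfl⟩
  rw [h1]
  refine isOpen_iInter_of_finite fun i => ?_
  have hfd : FiniteDimensional K i.fieldRange := by
    have := i.toLinearMap.finiteDimensional_range
    exact this
  exact IntermediateField.fixingSubgroup_isOpen i.fieldRange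

/-- the action on the embeddings is transitive -/
theorem perm_trans (i j : F →ₐ[K] AlgebraicClosure K) : ∃ σ : GK K, perm K F σ i = j := by
  let _ : Algebra F (AlgebraicClosure K) := (i : F →+* AlgebraicClosure K).toAlgebra
  have : IsScalarTower K F (AlgebraicClosure K) := IsScalarTower.of_algHom i
  have hal : Algebra.IsAlgebraic F (AlgebraicClosure K) :=
    Algebra.IsAlgebraic.tower_top (K := K) F
  obtain ⟨f, hf⟩ := IsAlgClosed.surjective_domRestrict_of_isAlgebraic (K := K) (L := F)
    (E := AlgebraicClosure K) (M := AlgebraicClosure K) j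
  refine ⟨AlgEquiv.ofBijective f (Algebra.IsAlgebraic.algHom_bijective f), ?_⟩
  refine AlgHom.ext fun x => ?_
  exact DFunLike.congr_fun hf x

/-- the base embedding -/
noncomputable def emb : F →ₐ[K] AlgebraicClosure K := IsAlgClosed.lift

theorem mem_galois (σ : GK K) : σ ∈ Datum.galois K F ↔ perm K F σ (emb K F) = emb K F := by
  unfold Datum.galois
  rw [IntermediateField.mem_fixingSubgroup_iff]
  constructor
  · intro h
    exact AlgHom.ext fun x => h (emb K F x) ⟨x, rfl⟩
  · rintro h _ ⟨x, rfl⟩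
    exact DFunLike.congr_fun h x

end

section
variable {F : Type} [Field F] [NumberField F]

theorem avg_eq (φ : HeightOneSpectrum (𝓞 F) → ℝ) (N : ℕ) :
    avg φ N = (∑ w ∈ upto F N, φ w) / ((upto F N).card : ℝ) := by
  have hs : ∀ v, v ∈ upto F N ↔ Ideal.absNorm v.asIdeal ≤ N := fun v => mem_upto
  let e : {v : HeightOneSpectrum (𝓞 F) // Ideal.absNorm v.asIdeal ≤ N} ≃ (upto F N) :=
    Equiv.subtypeEquivRight fun v => (hs v).symm
  have hfin : Finite {v : HeightOneSpectrum (𝓞 F) // Ideal.absNorm v.asIdeal ≤ N} :=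
    Finite.of_equiv _ e.symm
  unfold avg
  have h1 : (∑ᶠ v : {v : HeightOneSpectrum (𝓞 F) // Ideal.absNorm v.asIdeal ≤ N}, φ v.1) =
      ∑ v ∈ upto F N, φ v := by
    rw [← Finset.sum_coe_sort, ← finsum_eq_sum_of_fintype, ← finsum_comp_equiv e]
    rfl
  have h2 : Nat.card {v : HeightOneSpectrum (𝓞 F) // Ideal.absNorm v.asIdeal ≤ N} =
      (upto F N).card := by
    rw [Nat.card_congr e, Nat.card_eq_fintype_card, Fintype.card_coe]
  rw [h1, h2]

theorem card_ratio : Tendsto (fun N : ℕ => ((upto F N).card : ℝ) / (Nat.primeCounting N : ℝ)) atTop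
    (𝓝 1) := by
  choose σ hσ using exists_isFrob (F := F)
  have h1 := cheb_fin (K := F) (T := Unit) 1 (by
    rw [MonoidHom.ker_one]; exact isOpen_univ) (fun _ => (1 : ℝ)) (fun _ _ => rfl) σ hσ
  have h2 : Finite (1 : GK F →* Unit).range := inferInstance
  have h3 : ((Nat.card (1 : GK F →* Unit).range : ℝ))⁻¹ *
      ∑ᶠ _ : (1 : GK F →* Unit).range, (1 : ℝ) = 1 := by
    let _ : Fintype (1 : GK F →* Unit).range := Fintype.ofFinite _
    rw [finsum_eq_sum_of_fintype, Finset.sum_const, Finset.card_univ, nsmul_eq_mul, mul_one,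
      ← Nat.card_eq_fintype_card, inv_mul_cancel₀]
    exact_mod_cast Nat.card_pos.ne'
  rw [h3] at h1
  refine h1.congr fun N => ?_
  simp

theorem card_pos_ev : ∀ᶠ N : ℕ in atTop, (0 : ℝ) < ((upto F N).card : ℝ) := by
  filter_upwards [(card_ratio (F := F)).eventually_ne one_ne_zero] with n hn
  refine lt_of_le_of_ne (Nat.cast_nonneg _) fun h => hn ?_
  rw [← h, zero_div]

/-- two normalisations of the averages of bounded functions -/
theorem avg_sub (φ : HeightOneSpectrum (𝓞 F) → ℝ) {B : ℝ} (hφ : ∀ w, |φ w| ≤ B) :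
    Tendsto (fun N => avg φ N - (∑ w ∈ upto F N, φ w) / (Nat.primeCounting N : ℝ)) atTop
      (𝓝 0) := by
  have h1 : Tendsto (fun N : ℕ => B * |1 - ((upto F N).card : ℝ) / (Nat.primeCounting N : ℝ)|)
      atTop (𝓝 0) := by
    have h2 := ((tendsto_const_nhds (x := (1 : ℝ))).sub (card_ratio (F := F))).abs.const_mul B
    simpa using h2
  refine squeeze_zero_norm' ?_ h1
  filter_upwards [card_pos_ev (F := F)] with N hN
  rw [avg_eq, Real.norm_eq_abs]
  have h3 : (∑ w ∈ upto F N, φ w) / ((upto F N).card : ℝ) -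
      (∑ w ∈ upto F N, φ w) / (Nat.primeCounting N : ℝ) =
      ((∑ w ∈ upto F N, φ w) / ((upto F N).card : ℝ)) *
        (1 - ((upto F N).card : ℝ) / (Nat.primeCounting N : ℝ)) := by
    field_simp
  rw [h3, abs_mul]
  refine mul_le_mul_of_nonneg_right ?_ (abs_nonneg _)
  rw [abs_div, abs_of_pos hN, div_le_iff₀ hN]
  refine (Finset.abs_sum_le_sum_abs _ _).trans ?_
  refine (Finset.sum_le_card_nsmul _ _ B fun w _ => hφ w).trans ?_
  rw [nsmul_eq_mul, mul_comm]

end

section
variable {K : Type} [Field K] [NumberField K] {G : Type} [Group G] [TopologicalSpace G]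
  [IsTopologicalGroup G] [CompactSpace G] [MeasurableSpace G] [BorelSpace G] (μ : Measure G)
  [IsProbabilityMeasure μ] [μ.IsHaarMeasure] (D : Datum K G)
  (F : Type) [Field F] [NumberField F] [Algebra K F]

/-- the kernel of the joint action is open -/
theorem prod_open {Q : Type} [Group Q] (r : GK K →* Q) (hr : IsOpen (r.ker : Set (GK K))) :
    IsOpen ((r.prod (perm K F)).ker : Set (GK K)) := by
  have h3 : ((r.prod (perm K F)).ker : Set (GK K)) =
      (r.ker : Set (GK K)) ∩ ((perm K F).ker : Set (GK K)) := by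
    ext σ
    rw [Set.mem_inter_iff, SetLike.mem_coe, SetLike.mem_coe, SetLike.mem_coe, MonoidHom.mem_ker,
      MonoidHom.mem_ker, MonoidHom.mem_ker, Prod.ext_iff]
    rfl
  rw [h3]
  exact hr.inter (perm_open K F)

theorem fixc_conj (a b : Equiv.Perm (F →ₐ[K] AlgebraicClosure K)) :
    Nat.card {i // (a * b * a⁻¹) i = i} = Nat.card {i // b i = i} := by
  refine Nat.card_congr (Equiv.subtypeEquiv a⁻¹ fun i => ?_)
  rw [Equiv.Perm.mul_apply, Equiv.Perm.mul_apply]
  constructor
  · intro h
    rw [Equiv.Perm.eq_inv_iff_eq, h]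
  · intro h
    rw [h]
    exact a.apply_symm_apply i

/-- **The mean of a class function over the Frobenius elements of an extension.** -/
theorem cheb_ext {Q : Type} [Group Q] [Finite Q] (r : GK K →* Q)
    (hr : IsOpen (r.ker : Set (GK K))) (E : Q → ℝ) (hE : ∀ s t, E (s * t * s⁻¹) = E t)
    (σ : HeightOneSpectrum (𝓞 K) → GK K) (hσ : ∀ v, IsFrob v (σ v)) :
    Tendsto (fun N => (∑ v ∈ upto K N, (fixc K F (σ v) : ℝ) * E (r (σ v))) /
      (Nat.primeCounting N : ℝ)) atTop
      (𝓝 ((Nat.card ((Datum.galois K F).map r) : ℝ)⁻¹ *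
        ∑ᶠ q : (Datum.galois K F).map r, E q)) := by
  classical
  set Θ := r.prod (perm K F) with hΘ
  have hopen := prod_open F r hr
  have hfin := finite_range Θ hopen
  have h1 := cheb_fin Θ hopen (fun t => (Nat.card {i // t.2 i = i} : ℝ) * E t.1) (by
    intro a b
    rw [Prod.fst_mul, Prod.fst_mul, Prod.fst_inv, Prod.snd_mul, Prod.snd_mul, Prod.snd_inv,
      fixc_conj, hE]) σ hσ
  have hst : ∀ g : Θ.range, g.1.2 (emb K F) = emb K F ↔
      g ∈ ((Datum.galois K F).map Θ).subgroupOf Θ.range := by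
    rintro ⟨_, s, rfl⟩
    rw [Subgroup.mem_subgroupOf]
    constructor
    · intro h
      exact ⟨s, (mem_galois K F s).2 h, rfl⟩
    · rintro ⟨s', hs', h⟩
      rw [SetLike.mem_coe, mem_galois] at hs'
      have h2 := congrArg (fun z : Q × Equiv.Perm (F →ₐ[K] AlgebraicClosure K) => z.2 (emb K F)) h
      exact h2.symm.trans hs'
  have h2 := burn (Γ := Θ.range) (Y := F →ₐ[K] AlgebraicClosure K)
    ((MonoidHom.snd _ _).comp Θ.range.subtype) (fun i j => by
      obtain ⟨s, hs⟩ := perm_trans K F i j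
      exact ⟨⟨Θ s, s, rfl⟩, hs⟩) ((MonoidHom.fst _ _).comp Θ.range.subtype) E hE (emb K F)
    (((Datum.galois K F).map Θ).subgroupOf Θ.range) (fun g => (hst g).symm)
  have h3 : (((Datum.galois K F).map Θ).subgroupOf Θ.range).map
      ((MonoidHom.fst _ _).comp Θ.range.subtype) = (Datum.galois K F).map r := by
    ext q
    constructor
    · rintro ⟨⟨_, s, rfl⟩, hg, rfl⟩
      rw [SetLike.mem_coe, Subgroup.mem_subgroupOf] at hg
      obtain ⟨s', hs', h⟩ := hg
      exact ⟨s', hs', congrArg Prod.fst h⟩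
    · rintro ⟨s, hs, rfl⟩
      exact ⟨⟨Θ s, s, rfl⟩, ⟨s, hs, rfl⟩, rfl⟩
  rw [h3] at h2
  rw [← h2]
  exact h1

theorem bd_test {f : G → ℝ} (hf : IsTest f) (g : G) : |f g| ≤ 1 :=
  abs_le.2 ⟨by linarith [hf.nonneg g], hf.le_one g⟩

/-- **The discrepancy over an extension.** -/
theorem disc_eq (σ : HeightOneSpectrum (𝓞 K) → GK K) (hσ : ∀ v, IsFrob v (σ v)) {f : G → ℝ}
    (hf : IsTest f) :
    Tendsto (fun N => D.disc F μ f N - (∑ v ∈ upto K N, (fixc K F (σ v) : ℝ) *
      (f (D.x v) - comp μ D.π f (D.r (σ v)))) / (Nat.primeCounting N : ℝ)) atTop (𝓝 0) := by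
  have h1 := avg_sub (F := F) (fun w => f (D.frobenius F w)) (B := 1) fun w => bd_test hf _
  have h2 := transfer (K := K) (F := F) σ hσ (fun w => f (D.frobenius F w)) (fun v => f (D.x v))
    (B := 1) (fun w => bd_test hf _) (fun v => bd_test hf _) (Filter.Eventually.of_forall (by
      intro w hw
      unfold Datum.frobenius
      rw [(deg_one (K := K) w hw).1, pow_one]))
  have h3 := cheb_ext F D.r D.r_open (comp μ D.π f)
    (comp_conj μ D.π D.π_surjective f hf.conj) σ hσ
  have h4 := average_comap μ D.π D.π_surjective D.π_open f hf.continuous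
    ((Datum.galois K F).map D.r)
  rw [← h4] at h3
  have h5 := (h1.add h2).add (h3.sub_const (⨍ g in
    (((Datum.galois K F).map D.r).comap D.π : Set G), f g ∂μ))
  rw [add_zero, zero_add, sub_self] at h5
  refine h5.congr fun N => ?_
  unfold Datum.disc Datum.groupOver
  have h6 : ∑ v ∈ upto K N, (fixc K F (σ v) : ℝ) * (f (D.x v) - comp μ D.π f (D.r (σ v))) =
      ∑ v ∈ upto K N, (fixc K F (σ v) : ℝ) * f (D.x v) -
        ∑ v ∈ upto K N, (fixc K F (σ v) : ℝ) * comp μ D.π f (D.r (σ v)) := by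
    rw [← Finset.sum_sub_distrib]
    exact Finset.sum_congr rfl fun v _ => by ring
  rw [h6]
  ring

end

end Pool.Agent.Helper644_ST
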