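import Pool.Agent.Helper644_ST.Rel

/-! Equidistribution in terms of the discrepancies. -/

set_option autoImplicit false
set_option linter.unusedSectionVars false

namespace Pool.Agent.Helper644_ST

open NumberField IsDedekindDomain Filter Topology MeasureTheory
open Pool.Agent.W401.Cheb (GK IsFrob)
open Pool.Agent.W540.BE (upto nm mem_upto exists_isFrob cheb_mean)
open Pool.Agent.W352.ChAbs (sqrt_div_pi const_div_pi decomp)

section
variable {K : Type} [Field K] [NumberField K] {G : Type} [Group G] [TopologicalSpace G]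
  [IsTopologicalGroup G] [CompactSpace G] [MeasurableSpace G] [BorelSpace G] (μ : Measure G)
  [IsProbabilityMeasure μ] [μ.IsHaarMeasure] (D : Datum K G)

theorem comp_affine {Q : Type} [Group Q] [Finite Q] (π : G →* Q)
    (hs : Function.Surjective π) (ho : IsOpen (π.ker : Set G)) {t : G → ℝ} (ht : Continuous t)
    (a b : ℝ) (q : Q) : comp μ π (fun g => a * t g + b) q = a * comp μ π t q + b := by
  classical
  have hc : Continuous fun g => if π g = q then (1 : ℝ) else 0 :=
    cont_comp π ho fun t => if t = q then (1 : ℝ) else 0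
  have h1 : ∀ g, (if π g = q then (1 : ℝ) else 0) * (a * t g + b) =
      a * ((if π g = q then (1 : ℝ) else 0) * t g) + b * ((if π g = q then (1 : ℝ) else 0) * 1) :=
    fun g => by ring
  have h2 := comp_one μ π hs ho q
  unfold comp at h2 ⊢
  have i1 : Integrable (fun g => a * ((if π g = q then (1 : ℝ) else 0) * t g)) μ :=
    (intg μ (hc.mul ht)).const_mul a
  have i2 : Integrable (fun g => b * ((if π g = q then (1 : ℝ) else 0) * 1)) μ :=
    (intg μ (hc.mul continuous_const)).const_mul b
  rw [integral_congr_ae (Filter.Eventually.of_forall h1), integral_add i1 i2,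
    integral_const_mul, integral_const_mul]
  linear_combination b * h2

theorem avg_affine {F : Type} [Field F] [NumberField F] (φ : HeightOneSpectrum (𝓞 F) → ℝ)
    (a b : ℝ) : ∀ᶠ N in atTop, avg (fun w => a * φ w + b) N = a * avg φ N + b := by
  filter_upwards [card_pos_ev (F := F)] with N hN
  rw [avg_eq, avg_eq, Finset.sum_add_distrib, ← Finset.mul_sum, Finset.sum_const, nsmul_eq_mul]
  field_simp

theorem average_affine (T : Subgroup D.Q) {t : G → ℝ} (ht : Continuous t) (a b : ℝ) :
    ⨍ g in (T.comap D.π : Set G), (a * t g + b) ∂μ =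
      a * (⨍ g in (T.comap D.π : Set G), t g ∂μ) + b := by
  classical
  rw [average_comap μ D.π D.π_surjective D.π_open _ (by fun_prop) T,
    average_comap μ D.π D.π_surjective D.π_open _ ht T]
  let _ : Fintype T := Fintype.ofFinite _
  have h0 : (Nat.card T : ℝ) ≠ 0 := by exact_mod_cast Nat.card_pos.ne'
  rw [finsum_eq_sum_of_fintype, finsum_eq_sum_of_fintype, Finset.sum_congr rfl fun q _ =>
    comp_affine μ D.π D.π_surjective D.π_open ht a b q.1, Finset.sum_add_distrib,
    ← Finset.mul_sum, Finset.sum_const, Finset.card_univ, nsmul_eq_mul,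
    ← Nat.card_eq_fintype_card]
  field_simp

theorem disc_affine (F : Type) [Field F] [NumberField F] [Algebra K F] {t : G → ℝ}
    (ht : Continuous t) (a b : ℝ) :
    ∀ᶠ N in atTop, D.disc F μ (fun g => a * t g + b) N = a * D.disc F μ t N := by
  filter_upwards [avg_affine (fun w => t (D.frobenius F w)) a b] with N hN
  unfold Datum.disc
  rw [hN]
  have h := average_affine μ D ((Datum.galois K F).map D.r) ht a b
  unfold Datum.groupOver
  rw [h]
  ring

/-- class functions are affine functions of tests -/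
theorem exists_test {f : G → ℝ} (hf : IsClassFunction f) :
    ∃ (t : G → ℝ) (a b : ℝ), IsTest t ∧ f = fun g => a * t g + b := by
  obtain ⟨B, hB⟩ := (isCompact_univ (X := G)).exists_bound_of_continuousOn
    hf.continuous.continuousOn
  have hB' : ∀ g, |f g| ≤ |B| + 1 := fun g => by
    have := hB g (Set.mem_univ g)
    rw [Real.norm_eq_abs] at this
    linarith [le_abs_self B]
  have hpos : 0 < |B| + 1 := by positivity
  refine ⟨fun g => (f g + (|B| + 1)) / (2 * (|B| + 1)), 2 * (|B| + 1), -(|B| + 1), ?_, ?_⟩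
  · refine ⟨⟨?_, ?_⟩, ?_, ?_⟩
    · have := hf.continuous
      fun_prop
    · intro g h
      rw [hf.conj]
    · intro g
      have := (abs_le.1 (hB' g)).1
      exact div_nonneg (by linarith) (by linarith)
    · intro g
      have := (abs_le.1 (hB' g)).2
      rw [div_le_one (by linarith)]
      linarith
  · funext g
    field_simp
    ring

theorem over_iff (F : Type) [Field F] [NumberField F] [Algebra K F] :
    D.SatoTateOver F μ ↔ ∀ f, IsTest f → Tendsto (D.disc F μ f) atTop (𝓝 0) := by
  constructor
  · intro h f hf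
    exact h f hf.toIsClassFunction
  · intro h f hf
    obtain ⟨t, a, b, ht, rfl⟩ := exists_test hf
    have h1 := (h t ht).const_mul a
    rw [mul_zero] at h1
    refine h1.congr' ?_
    filter_upwards [disc_affine μ D F ht.continuous a b] with N hN
    rw [hN]

theorem groupOver_self : D.groupOver K = ⊤ := by
  have h1 : Datum.galois K K = ⊤ := by
    rw [eq_top_iff]
    intro σ _
    rw [mem_galois]
    exact Subsingleton.elim _ _
  unfold Datum.groupOver
  rw [h1, ← MonoidHom.range_eq_map, MonoidHom.range_eq_top.2 D.r_surjective,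
    Subgroup.comap_top]

theorem law_eq {f : G → ℝ} (hf : IsTest f) : Tendsto (fun N => D.disc K μ f N -
    (avg (fun v : HeightOneSpectrum (𝓞 K) => f (D.x v)) N - ∫ g, f g ∂μ)) atTop (𝓝 0) := by
  choose σ hσ using exists_isFrob (F := K)
  have h1 := avg_sub (F := K) (fun w => f (D.frobenius K w)) (B := 1) fun w => bd_test hf _
  have h2 := transfer (K := K) (F := K) σ hσ (fun w => f (D.frobenius K w)) (fun v => f (D.x v))
    (B := 1) (fun w => bd_test hf _) (fun v => bd_test hf _) (Filter.Eventually.of_forall (by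
      intro w hw
      unfold Datum.frobenius
      rw [(deg_one (K := K) w hw).1, pow_one]))
  have h3 := avg_sub (F := K) (fun v => f (D.x v)) (B := 1) fun w => bd_test hf _
  have h5 := (h1.add h2).sub h3
  rw [add_zero, sub_zero] at h5
  refine h5.congr fun N => ?_
  unfold Datum.disc
  rw [groupOver_self]
  have h6 : ⨍ g in ((⊤ : Subgroup G) : Set G), f g ∂μ = ∫ g, f g ∂μ := by
    rw [Subgroup.coe_top, Measure.restrict_univ, average_eq_integral]
  rw [h6]
  have h7 : ∀ v : HeightOneSpectrum (𝓞 K), (fixc K K (σ v) : ℝ) * f (D.x v) = f (D.x v) := by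
    intro v
    rw [fixc_self]
    push_cast
    ring
  simp only [h7]
  ring

/-- **The law over `K` in terms of the discrepancies.** -/
theorem st_iff : D.SatoTate μ ↔ ∀ f, IsTest f → Tendsto (D.disc K μ f) atTop (𝓝 0) := by
  constructor
  · intro h f hf
    have h1 := (law_eq μ D hf).add ((h f hf.toIsClassFunction).sub_const (∫ g, f g ∂μ))
    rw [sub_self, add_zero] at h1
    refine h1.congr fun N => ?_
    ring
  · intro h f hf
    obtain ⟨t, a, b, ht, rfl⟩ := exists_test hf
    have h1 := (h t ht).sub (law_eq μ D ht)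
    have h2 : Tendsto (fun N => a * (avg (fun v : HeightOneSpectrum (𝓞 K) => t (D.x v)) N) + b)
        atTop (𝓝 (a * (∫ g, t g ∂μ) + b)) := by
      refine (Tendsto.const_mul a ?_).add_const b
      have h3 := h1.add_const (∫ g, t g ∂μ)
      rw [sub_zero, zero_add] at h3
      refine h3.congr fun N => ?_
      ring
    have h4 : ∫ g, (a * t g + b) ∂μ = a * (∫ g, t g ∂μ) + b := by
      rw [integral_add ((intg μ ht.continuous).const_mul a) (integrable_const b),
        integral_const_mul, integral_const, probReal_univ, one_smul]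
    rw [h4]
    refine h2.congr' ?_
    filter_upwards [avg_affine (fun v : HeightOneSpectrum (𝓞 K) => t (D.x v)) a b] with N hN
    rw [hN]

theorem over_self_iff : D.SatoTateOver K μ ↔ D.SatoTate μ := by
  rw [st_iff, over_iff]

/-- the expected values -/
theorem comb_mean (σ : HeightOneSpectrum (𝓞 K) → GK K) (hσ : ∀ v, IsFrob v (σ v)) {f : G → ℝ}
    (hf : IsTest f) {ι : Type} [Fintype ι] (F : ι → Type) [∀ i, Field (F i)]
    [∀ i, NumberField (F i)] [∀ i, Algebra K (F i)] (c : ι → ℝ) :
    Tendsto (fun N => (∑ v ∈ upto K N,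
      (∑ i, c i * (fixc K (F i) (σ v) : ℝ)) * comp μ D.π f (D.r (σ v))) /
      (Nat.primeCounting N : ℝ)) atTop
      (𝓝 (∑ i, c i * ⨍ g in (D.groupOver (F i) : Set G), f g ∂μ)) := by
  have h1 : Tendsto (fun N => ∑ i, c i * ((∑ v ∈ upto K N,
      (fixc K (F i) (σ v) : ℝ) * comp μ D.π f (D.r (σ v))) /
      (Nat.primeCounting N : ℝ))) atTop
      (𝓝 (∑ i, c i * ⨍ g in (D.groupOver (F i) : Set G), f g ∂μ)) := by
    refine tendsto_finsetSum _ fun i _ => Tendsto.const_mul (c i) ?_
    have h3 := cheb_ext (F i) D.r D.r_open (comp μ D.π f)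
      (comp_conj μ D.π D.π_surjective f hf.conj) σ hσ
    have h4 := average_comap μ D.π D.π_surjective D.π_open f hf.continuous
      ((Datum.galois K (F i)).map D.r)
    rw [← h4] at h3
    exact h3
  refine h1.congr fun N => ?_
  have h2 : ∑ v ∈ upto K N, (∑ i, c i * (fixc K (F i) (σ v) : ℝ)) * comp μ D.π f (D.r (σ v)) =
      ∑ i, c i * ∑ v ∈ upto K N, (fixc K (F i) (σ v) : ℝ) * comp μ D.π f (D.r (σ v)) := by
    simp only [Finset.mul_sum, Finset.sum_mul]
    rw [Finset.sum_comm]
    refine Finset.sum_congr rfl fun i _ => Finset.sum_congr rfl fun v _ => ?_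
    ring
  rw [h2, Finset.sum_div]
  refine Finset.sum_congr rfl fun i _ => ?_
  ring

/-- **The relations, sharper form.** -/
theorem relations_half {ι : Type} [Fintype ι] (F : ι → Type) [∀ i, Field (F i)]
    [∀ i, NumberField (F i)] [∀ i, Algebra K (F i)] (c : ι → ℝ)
    (hF : ∀ i, D.groupOver (F i) = ⊤) (hc : ∑ i, c i = 0) {f : G → ℝ} (hf : IsTest f)
    {η : ℝ} (hη : 0 < η) :
    ∀ᶠ N in atTop, |∑ i, c i * D.disc (F i) μ f N| ≤ 1 / 2 * meanAbs K F c + η := by
  choose σ hσ using exists_isFrob (F := K)
  refine bound (K := K) σ (X := fun N => ∑ i, c i * D.disc (F i) μ f N)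
    (θ := fun s => ∑ i, c i * (fixc K (F i) s : ℝ))
    (e := fun v => f (D.x v) - 1 / 2) (b := 1 / 2) ?_ ?_ (mean_abs σ hσ F c) hη
  · intro v
    rw [abs_le]
    have h1 := hf.nonneg (D.x v)
    have h2 := hf.le_one (D.x v)
    constructor <;> linarith
  · have h1 := comb_eq μ D σ hσ hf F c
    have h2 := comb_mean μ D σ hσ hf F c
    have h3 : Tendsto (fun N => ∑ i, c i * ((∑ v ∈ upto K N, (fixc K (F i) (σ v) : ℝ)) /
        (Nat.primeCounting N : ℝ))) atTop (𝓝 (∑ i, c i * 1)) :=
      tendsto_finsetSum _ fun i _ => (mean_one σ hσ (F i)).const_mul (c i)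
    have h4 : ∑ i, c i * ⨍ g in (D.groupOver (F i) : Set G), f g ∂μ = 0 := by
      rw [Finset.sum_congr rfl fun i _ => by rw [hF i], ← Finset.sum_mul, hc, zero_mul]
    rw [h4] at h2
    simp only [mul_one] at h3
    rw [hc] at h3
    have h5 := (h1.sub h2).add (h3.const_mul (1 / 2))
    rw [sub_zero, mul_zero, add_zero] at h5
    refine h5.congr fun N => ?_
    have e1 : ∑ i, c i * ((∑ v ∈ upto K N, (fixc K (F i) (σ v) : ℝ)) /
        (Nat.primeCounting N : ℝ)) = (∑ v ∈ upto K N, (∑ i, c i * (fixc K (F i) (σ v) : ℝ))) /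
        (Nat.primeCounting N : ℝ) := by
      rw [Finset.sum_comm, Finset.sum_div]
      refine Finset.sum_congr rfl fun i _ => ?_
      rw [← Finset.mul_sum]
      ring
    rw [e1]
    have e2 : ∀ (A B C : HeightOneSpectrum (𝓞 K) → ℝ), ∑ v ∈ upto K N, A v * (B v - C v) =
        ∑ v ∈ upto K N, A v * B v - ∑ v ∈ upto K N, A v * C v := by
      intro A B C
      rw [← Finset.sum_sub_distrib]
      exact Finset.sum_congr rfl fun v _ => by ring
    rw [e2, e2, ← Finset.sum_mul]
    ring

/-- **Two fields, sharper form.** -/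
theorem two_fields_half (F : Type) [Field F] [NumberField F] [Algebra K F]
    (hF : D.groupOver F = ⊤) {f : G → ℝ} (hf : IsTest f) {η : ℝ} (hη : 0 < η) :
    ∀ᶠ N in atTop, |D.disc F μ f N - D.disc K μ f N| ≤ derangements K F + η := by
  choose σ hσ using exists_isFrob (F := K)
  have h := bound (K := K) σ (X := fun N => D.disc F μ f N - D.disc K μ f N)
    (θ := fun s => (fixc K F s : ℝ) - 1)
    (e := fun v => f (D.x v) - 1 / 2) (b := 1 / 2) ?_ ?_ (mean_drg σ hσ F) hη
  · have e : 1 / 2 * (2 * derangements K F) = derangements K F := by ring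
    rw [e] at h
    exact h
  · intro v
    rw [abs_le]
    have h1 := hf.nonneg (D.x v)
    have h2 := hf.le_one (D.x v)
    constructor <;> linarith
  · have h1 := pair_eq μ D σ hσ hf F
    have hm : ∀ (E : Type) [Field E] [NumberField E] [Algebra K E], D.groupOver E = ⊤ →
        Tendsto (fun N => (∑ v ∈ upto K N, (fixc K E (σ v) : ℝ) * comp μ D.π f (D.r (σ v))) /
          (Nat.primeCounting N : ℝ)) atTop (𝓝 (∫ g, f g ∂μ)) := by
      intro E _ _ _ hE
      have h3 := cheb_ext E D.r D.r_open (comp μ D.π f)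
        (comp_conj μ D.π D.π_surjective f hf.conj) σ hσ
      have h4 := average_comap μ D.π D.π_surjective D.π_open f hf.continuous
        ((Datum.galois K E).map D.r)
      have h5 : ((Datum.galois K E).map D.r).comap D.π = ⊤ := hE
      rw [h5, Subgroup.coe_top, Measure.restrict_univ, average_eq_integral] at h4
      rw [← h4] at h3
      exact h3
    have h2 := (hm F hF).sub (hm K (groupOver_self D))
    rw [sub_self] at h2
    have h3 := (mean_one σ hσ F).sub (mean_one σ hσ K)
    rw [sub_self] at h3
    have h6 := h1.sub h2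
    rw [sub_zero] at h6
    have h7 := h6.add (h3.const_mul (1 / 2))
    rw [mul_zero, add_zero] at h7
    refine h7.congr fun N => ?_
    simp only [fixc_self, Nat.cast_one, one_mul]
    have e2 : ∀ (A B C : HeightOneSpectrum (𝓞 K) → ℝ), ∑ v ∈ upto K N, (A v - 1) * (B v - C v) =
        ∑ v ∈ upto K N, A v * B v - ∑ v ∈ upto K N, A v * C v - ∑ v ∈ upto K N, B v +
          ∑ v ∈ upto K N, C v := by
      intro A B C
      rw [← Finset.sum_sub_distrib, ← Finset.sum_sub_distrib, ← Finset.sum_add_distrib]
      exact Finset.sum_congr rfl fun v _ => by ring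
    rw [e2, e2, ← Finset.sum_mul, Finset.sum_const, Finset.sum_const, nsmul_eq_mul, nsmul_eq_mul]
    ring

/-- **Fields with few derangements.** -/
theorem seq_iff (F : ℕ → Type) [∀ n, Field (F n)] [∀ n, NumberField (F n)]
    [∀ n, Algebra K (F n)] (h : Tendsto (fun n => derangements K (F n)) atTop (𝓝 0)) :
    D.SatoTate μ ↔ ∀ f, IsTest f → ∀ η : ℝ, 0 < η → ∀ᶠ n in atTop, ∀ᶠ N in atTop,
      |D.disc (F n) μ f N| ≤ η := by
  rw [st_iff]
  constructor
  · intro hK f hf η hη
    filter_upwards [h.eventually_lt_const (show (0 : ℝ) < η / 6 by positivity)] with n hn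
    have h1 := (hK f hf).abs
    rw [abs_zero] at h1
    filter_upwards [two_fields μ D (F n) hf (show (0 : ℝ) < η / 3 by positivity),
      h1.eventually_lt_const (show (0 : ℝ) < η / 3 by positivity)] with N h2 h3
    have h4 := abs_sub_abs_le_abs_sub (D.disc (F n) μ f N) (D.disc K μ f N)
    linarith
  · intro hF f hf
    rw [Metric.tendsto_atTop']
    intro ε hε
    obtain ⟨n, hn1, hn2⟩ := ((hF f hf (ε / 4) (by positivity)).and
      (h.eventually_lt_const (show (0 : ℝ) < ε / 8 by positivity))).exists
    have h3 : ∀ᶠ N in atTop, dist (D.disc K μ f N) 0 < ε := by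
      filter_upwards [hn1, two_fields μ D (F n) hf (show (0 : ℝ) < ε / 4 by positivity)]
        with N h4 h5
      rw [Real.dist_eq, sub_zero]
      have h6 := abs_sub_abs_le_abs_sub (D.disc K μ f N) (D.disc (F n) μ f N)
      rw [abs_sub_comm] at h5
      linarith
    obtain ⟨N0, hN0⟩ := eventually_atTop.1 h3
    exact ⟨N0, fun N hN => hN0 N hN.le⟩

end

end Pool.Agent.Helper644_ST
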