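import Pool.Agent.Helper644_ST.Rel
import Pool.Agent.Helper644_ST.BesDefs

/-! The second moments of the numbers of fixed embeddings. -/

set_option autoImplicit false
set_option linter.unusedSectionVars false

namespace Pool.Agent.Helper644_ST

open NumberField IsDedekindDomain Filter Topology MeasureTheory
open Pool.Agent.W401.Cheb (GK IsFrob)
open Pool.Agent.W540.BE (upto nm mem_upto exists_isFrob cheb_mean)
open scoped TensorProduct

/-- two embeddings of an algebraic extension are conjugate -/
theorem emb_conj {K L : Type} [Field K] [Field L] [Algebra K L] [Algebra.IsAlgebraic K L]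
    (i j : L →ₐ[K] AlgebraicClosure K) :
    ∃ σ : GK K, ∀ x, σ (i x) = j x := by
  let _ : Algebra L (AlgebraicClosure K) := (i : L →+* AlgebraicClosure K).toAlgebra
  have : IsScalarTower K L (AlgebraicClosure K) := IsScalarTower.of_algHom i
  have hal : Algebra.IsAlgebraic L (AlgebraicClosure K) :=
    Algebra.IsAlgebraic.tower_top (K := K) L
  obtain ⟨f, hf⟩ := IsAlgClosed.surjective_domRestrict_of_isAlgebraic (K := K) (L := L)
    (E := AlgebraicClosure K) (M := AlgebraicClosure K) j
  exact ⟨AlgEquiv.ofBijective f (Algebra.IsAlgebraic.algHom_bijective f),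
    fun x => DFunLike.congr_fun hf x⟩

theorem fd {K F : Type} [Field K] [NumberField K] [Field F] [NumberField F] [Algebra K F] :
    Module.Finite K F := Module.Finite.of_restrictScalars_finite ℚ K F

section
variable (K F F' : Type) [Field K] [NumberField K] [Field F] [NumberField F] [Field F']
  [NumberField F'] [Algebra K F] [Algebra K F']

/-- pairs of embeddings -/
abbrev Pairs : Type := (F →ₐ[K] AlgebraicClosure K) × (F' →ₐ[K] AlgebraicClosure K)

/-- the homomorphism of the tensor product given by two embeddings -/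
noncomputable def pm (p : Pairs K F F') : F ⊗[K] F' →ₐ[K] AlgebraicClosure K :=
  Algebra.TensorProduct.productMap p.1 p.2

theorem ker_max (φ : F ⊗[K] F' →ₐ[K] AlgebraicClosure K) : (RingHom.ker φ).IsMaximal := by
  have h1 := fd (K := K) (F := F)
  have h2 := fd (K := K) (F := F')
  have h3 : Module.Finite K (F ⊗[K] F') := inferInstance
  have h4 : IsArtinianRing (F ⊗[K] F') := IsArtinianRing.of_finite K (F ⊗[K] F')
  have h5 : (RingHom.ker φ).IsPrime := RingHom.ker_isPrime φ
  exact IsArtinianRing.isMaximal_of_isPrime (RingHom.ker φ)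

/-- the maximal ideal which belongs to two embeddings -/
noncomputable def toMax (p : Pairs K F F') : MaximalSpectrum (F ⊗[K] F') :=
  ⟨RingHom.ker (pm K F F' p), ker_max K F F' _⟩

/-- the action on the pairs of embeddings -/
noncomputable def act : GK K →* Equiv.Perm (Pairs K F F') where
  toFun σ := Equiv.prodCongr (perm K F σ) (perm K F' σ)
  map_one' := by
    rw [map_one, map_one]
    rfl
  map_mul' σ τ := by
    rw [map_mul, map_mul]
    rfl

theorem pm_act (σ : GK K) (p : Pairs K F F') (x : F ⊗[K] F') :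
    pm K F F' (act K F F' σ p) x = σ (pm K F F' p x) := by
  induction x using TensorProduct.induction_on with
  | zero => rw [map_zero, map_zero, map_zero]
  | tmul a b =>
    unfold pm
    rw [Algebra.TensorProduct.productMap_apply_tmul, Algebra.TensorProduct.productMap_apply_tmul,
      map_mul]
    rfl
  | add x y hx hy => rw [map_add, map_add, map_add, hx, hy]

theorem toMax_act (σ : GK K) (p : Pairs K F F') :
    toMax K F F' (act K F F' σ p) = toMax K F F' p := by
  apply MaximalSpectrum.ext
  ext x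
  change pm K F F' (act K F F' σ p) x = 0 ↔ pm K F F' p x = 0
  rw [pm_act]
  exact map_eq_zero_iff σ σ.injective

theorem toMax_surj (m : MaximalSpectrum (F ⊗[K] F')) : ∃ p, toMax K F F' p = m := by
  have h1 := fd (K := K) (F := F)
  have h2 := fd (K := K) (F := F')
  have h3 : Module.Finite K (F ⊗[K] F') := inferInstance
  have hm := m.isMaximal
  let _ : Field ((F ⊗[K] F') ⧸ m.asIdeal) := Ideal.Quotient.field m.asIdeal
  have h4 : Algebra.IsAlgebraic K ((F ⊗[K] F') ⧸ m.asIdeal) := inferInstance
  let ψ : ((F ⊗[K] F') ⧸ m.asIdeal) →ₐ[K] AlgebraicClosure K := IsAlgClosed.lift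
  let φ : F ⊗[K] F' →ₐ[K] AlgebraicClosure K := ψ.comp (Ideal.Quotient.mkₐ K m.asIdeal)
  refine ⟨(φ.comp Algebra.TensorProduct.includeLeft, φ.comp Algebra.TensorProduct.includeRight), ?_⟩
  have h5 : pm K F F' (φ.comp Algebra.TensorProduct.includeLeft,
      φ.comp Algebra.TensorProduct.includeRight) = φ := by
    refine Algebra.TensorProduct.ext' fun a b => ?_
    unfold pm
    rw [Algebra.TensorProduct.productMap_apply_tmul]
    change φ (a ⊗ₜ 1) * φ (1 ⊗ₜ b) = φ (a ⊗ₜ b)
    rw [← map_mul, Algebra.TensorProduct.tmul_mul_tmul, mul_one, one_mul]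
  apply MaximalSpectrum.ext
  ext x
  change pm K F F' _ x = 0 ↔ _
  rw [h5]
  change ψ (Ideal.Quotient.mk m.asIdeal x) = 0 ↔ _
  rw [map_eq_zero_iff ψ ψ.injective, Ideal.Quotient.eq_zero_iff_mem]

theorem toMax_eq (p q : Pairs K F F') (h : toMax K F F' p = toMax K F F' q) :
    ∃ σ : GK K, act K F F' σ p = q := by
  have h1 := fd (K := K) (F := F)
  have h2 := fd (K := K) (F := F')
  have h3 : Module.Finite K (F ⊗[K] F') := inferInstance
  set m := toMax K F F' p with hm0
  have hm := m.isMaximal
  let _ : Field ((F ⊗[K] F') ⧸ m.asIdeal) := Ideal.Quotient.field m.asIdeal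
  have h4 : Algebra.IsAlgebraic K ((F ⊗[K] F') ⧸ m.asIdeal) := inferInstance
  have hp : ∀ a ∈ m.asIdeal, pm K F F' p a = 0 := fun a ha => ha
  have hq : ∀ a ∈ m.asIdeal, pm K F F' q a = 0 := fun a ha => by
    rw [h] at ha
    exact ha
  let i : ((F ⊗[K] F') ⧸ m.asIdeal) →ₐ[K] AlgebraicClosure K :=
    Ideal.Quotient.liftₐ m.asIdeal (pm K F F' p) hp
  let j : ((F ⊗[K] F') ⧸ m.asIdeal) →ₐ[K] AlgebraicClosure K :=
    Ideal.Quotient.liftₐ m.asIdeal (pm K F F' q) hq
  obtain ⟨σ, hσ⟩ := emb_conj i j
  have h5 : ∀ x, σ (pm K F F' p x) = pm K F F' q x := fun x =>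
    hσ (Ideal.Quotient.mk m.asIdeal x)
  refine ⟨σ, Prod.ext (AlgHom.ext fun a => ?_) (AlgHom.ext fun b => ?_)⟩
  · have h6 := h5 (a ⊗ₜ 1)
    unfold pm at h6
    rw [Algebra.TensorProduct.productMap_apply_tmul, Algebra.TensorProduct.productMap_apply_tmul,
      map_one, map_one, mul_one, mul_one] at h6
    exact h6
  · have h6 := h5 (1 ⊗ₜ b)
    unfold pm at h6
    rw [Algebra.TensorProduct.productMap_apply_tmul, Algebra.TensorProduct.productMap_apply_tmul,
      map_one, map_one, one_mul, one_mul] at h6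
    exact h6

end

/-- the lemma of Burnside -/
theorem burnside {Γ Y Z : Type} [Group Γ] [Finite Γ] [Finite Y] (a : Γ →* Equiv.Perm Y) (t : Y → Z)
    (hs : ∀ z, ∃ y, t y = z) (ht : ∀ g y, t (a g y) = t y)
    (he : ∀ y y', t y = t y' → ∃ g, a g y = y') :
    (Nat.card Γ : ℝ)⁻¹ * ∑ᶠ g : Γ, (Nat.card {y // a g y = y} : ℝ) = Nat.card Z := by
  classical
  let _ : Fintype Γ := Fintype.ofFinite Γ
  let _ : Fintype Y := Fintype.ofFinite Y
  let _ : MulAction Γ Y := MulAction.compHom Y a
  let _ : Fintype (Quotient (MulAction.orbitRel Γ Y)) := Fintype.ofFinite _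
  have h1 := MulAction.sum_card_fixedBy_eq_card_orbits_mul_card_group Γ Y
  have h2 : Fintype.card (Quotient (MulAction.orbitRel Γ Y)) = Nat.card Z := by
    rw [← Nat.card_eq_fintype_card]
    refine Nat.card_congr (Equiv.ofBijective (Quotient.lift t ?_) ⟨?_, ?_⟩)
    · intro y y' h
      obtain ⟨g, hg⟩ := h
      rw [← hg]
      exact ht g y'
    · intro q q' h
      induction q using Quotient.inductionOn with
      | h y =>
        induction q' using Quotient.inductionOn with
        | h y' =>
          obtain ⟨g, hg⟩ := he y' y (Eq.symm h)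
          exact Quotient.sound ⟨g, hg⟩
    · intro z
      obtain ⟨y, hy⟩ := hs z
      exact ⟨Quotient.mk _ y, hy⟩
  have h3 : (Nat.card Γ : ℝ) ≠ 0 := by exact_mod_cast Nat.card_pos.ne'
  rw [finsum_eq_sum_of_fintype, inv_mul_eq_iff_eq_mul₀ h3, ← h2, Nat.card_eq_fintype_card (α := Γ)]
  have h4 : ∀ g : Γ, Nat.card {y // a g y = y} = Fintype.card (MulAction.fixedBy Y g) := fun g => by
    rw [← Nat.card_eq_fintype_card]
    rfl
  rw [Finset.sum_congr rfl fun g _ => by rw [h4 g]]
  rw [mul_comm]
  exact_mod_cast h1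

section
variable (K F F' : Type) [Field K] [NumberField K] [Field F] [NumberField F] [Field F']
  [NumberField F'] [Algebra K F] [Algebra K F']

theorem act_open : IsOpen ((act K F F').ker : Set (GK K)) := by
  have h1 : ((perm K F).ker ⊓ (perm K F').ker : Subgroup (GK K)) ≤ (act K F F').ker := by
    rintro s ⟨h1, h2⟩
    have h1' : perm K F s = 1 := h1
    have h2' : perm K F' s = 1 := h2
    rw [MonoidHom.mem_ker]
    change Equiv.prodCongr (perm K F s) (perm K F' s) = 1
    rw [h1', h2']
    rfl
  refine Subgroup.isOpen_mono h1 ?_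
  exact (perm_open K F).inter (perm_open K F')

theorem card_fix (g : Equiv.Perm (F →ₐ[K] AlgebraicClosure K))
    (g' : Equiv.Perm (F' →ₐ[K] AlgebraicClosure K)) :
    Nat.card {p // Equiv.prodCongr g g' p = p} =
      Nat.card {i // g i = i} * Nat.card {i // g' i = i} := by
  rw [← Nat.card_prod]
  refine Nat.card_congr
    { toFun := fun p => (⟨p.1.1, congrArg Prod.fst p.2⟩, ⟨p.1.2, congrArg Prod.snd p.2⟩)
      invFun := fun q => ⟨(q.1.1, q.2.1), Prod.ext q.1.2 q.2.2⟩
      left_inv := fun _ => rfl
      right_inv := fun _ => rfl }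

/-- **The mean value of `fix_F fix_F'` is the number of the fields in the tensor product.** -/
theorem moment (σ : HeightOneSpectrum (𝓞 K) → GK K) (hσ : ∀ v, IsFrob v (σ v)) :
    Tendsto (fun N => (∑ v ∈ upto K N, (fixc K F (σ v) : ℝ) * fixc K F' (σ v)) /
      (Nat.primeCounting N : ℝ)) atTop (𝓝 (numFields K F F')) := by
  have hfin := finite_range (act K F F') (act_open K F F')
  have h1 := cheb_fin (act K F F') (act_open K F F')
    (fun t => (Nat.card {p // t p = p} : ℝ)) (by
      intro a b
      congr 1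
      refine Nat.card_congr (Equiv.subtypeEquiv (act K F F' a)⁻¹ fun p => ?_)
      rw [Equiv.Perm.mul_apply, Equiv.Perm.mul_apply]
      constructor
      · intro h
        rw [Equiv.Perm.eq_inv_iff_eq, h]
      · intro h
        rw [h]
        exact (act K F F' a).apply_symm_apply p) σ hσ
  have h2 := burnside (Γ := (act K F F').range) (Y := Pairs K F F') (act K F F').range.subtype
    (toMax K F F') (toMax_surj K F F') (by
      rintro ⟨_, s, rfl⟩ p
      exact toMax_act K F F' s p) (by
      intro p q h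
      obtain ⟨s, hs⟩ := toMax_eq K F F' p q h
      exact ⟨⟨_, s, rfl⟩, hs⟩)
  have h3 : (Nat.card (act K F F').range : ℝ)⁻¹ * ∑ᶠ t : (act K F F').range,
      (Nat.card {p // t.1 p = p} : ℝ) = numFields K F F' := h2
  rw [h3] at h1
  refine h1.congr fun N => ?_
  congr 1
  refine Finset.sum_congr rfl fun v _ => ?_
  unfold fixc
  rw [← Nat.cast_mul, ← card_fix]
  rfl

end

end Pool.Agent.Helper644_ST
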