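import Pool.Agent.Helper644_ST.Gal

/-! The relations between the discrepancies. -/

set_option autoImplicit false
set_option linter.unusedSectionVars false

namespace Pool.Agent.Helper644_ST

open NumberField IsDedekindDomain Filter Topology MeasureTheory
open Pool.Agent.W401.Cheb (GK IsFrob)
open Pool.Agent.W540.BE (upto nm mem_upto exists_isFrob cheb_mean)

section
variable {K : Type} [Field K] [NumberField K]

/-- the basic inequality -/
theorem bound (σ : HeightOneSpectrum (𝓞 K) → GK K) {X : ℕ → ℝ} {θ : GK K → ℝ}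
    {e : HeightOneSpectrum (𝓞 K) → ℝ} {b m : ℝ} (he : ∀ v, |e v| ≤ b)
    (hX : Tendsto (fun N => X N - (∑ v ∈ upto K N, θ (σ v) * e v) / (Nat.primeCounting N : ℝ))
      atTop (𝓝 0))
    (hθ : Tendsto (fun N => (∑ v ∈ upto K N, |θ (σ v)|) / (Nat.primeCounting N : ℝ)) atTop (𝓝 m))
    {η : ℝ} (hη : 0 < η) : ∀ᶠ N in atTop, |X N| ≤ b * m + η := by
  have h1 : ∀ᶠ N in atTop, |X N - (∑ v ∈ upto K N, θ (σ v) * e v) /
      (Nat.primeCounting N : ℝ)| < η / 2 := by
    have := hX.abs
    rw [abs_zero] at this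
    exact this.eventually_lt_const (by positivity)
  have h2 : ∀ᶠ N in atTop, b * ((∑ v ∈ upto K N, |θ (σ v)|) / (Nat.primeCounting N : ℝ)) <
      b * m + η / 2 := (hθ.const_mul b).eventually_lt_const (by linarith)
  filter_upwards [h1, h2] with N h1 h2
  have h3 : |(∑ v ∈ upto K N, θ (σ v) * e v) / (Nat.primeCounting N : ℝ)| ≤
      b * ((∑ v ∈ upto K N, |θ (σ v)|) / (Nat.primeCounting N : ℝ)) := by
    rw [abs_div, abs_of_nonneg (a := (Nat.primeCounting N : ℝ)) (by positivity),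
      ← mul_div_assoc]
    refine div_le_div_of_nonneg_right ?_ (by positivity)
    refine (Finset.abs_sum_le_sum_abs _ _).trans ?_
    rw [Finset.mul_sum]
    refine Finset.sum_le_sum fun v _ => ?_
    rw [abs_mul, mul_comm]
    exact mul_le_mul_of_nonneg_right (he v) (abs_nonneg _)
  have h4 := abs_sub_abs_le_abs_sub (X N) ((∑ v ∈ upto K N, θ (σ v) * e v) /
    (Nat.primeCounting N : ℝ))
  linarith

/-- the mean of the absolute value -/
theorem mean_abs (σ : HeightOneSpectrum (𝓞 K) → GK K) (hσ : ∀ v, IsFrob v (σ v)) {ι : Type}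
    [Fintype ι] (F : ι → Type) [∀ i, Field (F i)] [∀ i, NumberField (F i)] [∀ i, Algebra K (F i)]
    (c : ι → ℝ) :
    Tendsto (fun N => (∑ v ∈ upto K N, |∑ i, c i * (fixc K (F i) (σ v) : ℝ)|) /
      (Nat.primeCounting N : ℝ)) atTop (𝓝 (meanAbs K F c)) := by
  have hopen : IsOpen ((MonoidHom.pi fun i => perm K (F i)).ker : Set (GK K)) := by
    have h3 : ((MonoidHom.pi fun i => perm K (F i)).ker : Set (GK K)) =
        ⋂ i, ((perm K (F i)).ker : Set (GK K)) := by
      ext s
      rw [Set.mem_iInter, SetLike.mem_coe, MonoidHom.mem_ker, funext_iff]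
      exact Iff.rfl
    rw [h3]
    exact isOpen_iInter_of_finite fun i => perm_open K (F i)
  have h1 := cheb_fin (MonoidHom.pi fun i => perm K (F i)) hopen
    (fun t => |fixSum c t|) (by
    intro a b
    congr 1
    refine Finset.sum_congr rfl fun i _ => ?_
    congr 2
    exact fixc_conj (F i) (perm K (F i) a) (perm K (F i) b)) σ hσ
  have h2 : (Nat.card (MonoidHom.pi fun i => perm K (F i)).range : ℝ)⁻¹ *
      ∑ᶠ t : (MonoidHom.pi fun i => perm K (F i)).range, |fixSum c t.1| = meanAbs K F c := by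
    unfold meanAbs mean
    rw [div_eq_inv_mul]
  rw [h2] at h1
  exact h1

theorem fixc_self (s : GK K) : fixc K K s = 1 := by
  unfold fixc
  have h1 : ∀ i j : K →ₐ[K] AlgebraicClosure K, i = j := fun i j => Subsingleton.elim i j
  have : Unique {i : K →ₐ[K] AlgebraicClosure K // perm K K s i = i} :=
    { default := ⟨Algebra.ofId K _, h1 _ _⟩
      uniq := fun a => Subtype.ext (h1 _ _) }
  exact Nat.card_unique

/-- the mean value of `|fix - 1|` is twice the proportion of the derangements -/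
theorem mean_fix_sub {Γ Y : Type} [Group Γ] [Finite Γ] [Finite Y] (y0 : Y)
    (a : Γ →* Equiv.Perm Y) (ht : ∀ x y, ∃ g, a g x = y) :
    (Nat.card Γ : ℝ)⁻¹ * ∑ᶠ g : Γ, |((Nat.card {y // a g y = y} : ℕ) : ℝ) - 1| =
      2 * ((Nat.card {g : Γ // ∀ y, a g y ≠ y} : ℝ) / Nat.card Γ) := by
  classical
  let _ : Fintype Γ := Fintype.ofFinite Γ
  have h0 : (Nat.card Γ : ℝ) ≠ 0 := by exact_mod_cast Nat.card_pos.ne'
  let H : Subgroup Γ :=
    { carrier := {g | a g y0 = y0}
      one_mem' := by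
        change a 1 y0 = y0
        rw [map_one]; rfl
      mul_mem' := fun {g g'} hg hg' => by
        change a (g * g') y0 = y0
        rw [map_mul, Equiv.Perm.mul_apply]
        exact (congrArg _ hg').trans hg
      inv_mem' := fun {g} hg => by
        change a g⁻¹ y0 = y0
        have h : a g y0 = y0 := hg
        rw [map_inv]
        conv_lhs => rw [← h]
        exact (a g).symm_apply_apply y0 }
  have h1 := burn a ht (1 : Γ →* Unit) (fun _ => (1 : ℝ)) (fun _ _ => rfl) y0 H fun g => Iff.rfl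
  have h1' : ((Nat.card (H.map (1 : Γ →* Unit)) : ℝ))⁻¹ *
      ∑ᶠ _ : H.map (1 : Γ →* Unit), (1 : ℝ) = 1 := by
    let _ : Fintype (H.map (1 : Γ →* Unit)) := Fintype.ofFinite _
    rw [finsum_eq_sum_of_fintype, Finset.sum_const, Finset.card_univ, nsmul_eq_mul, mul_one,
      ← Nat.card_eq_fintype_card, inv_mul_cancel₀]
    exact_mod_cast Nat.card_pos.ne'
  rw [h1', finsum_eq_sum_of_fintype] at h1
  simp only [mul_one] at h1
  have h1'' : ∑ g : Γ, (Nat.card {y // a g y = y} : ℝ) = Nat.card Γ := by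
    have := congrArg (fun z => (Nat.card Γ : ℝ) * z) h1
    simp only [mul_one] at this
    rw [← mul_assoc, mul_inv_cancel₀ h0, one_mul] at this
    exact this
  rw [finsum_eq_sum_of_fintype]
  have h2 : ∀ g : Γ, |((Nat.card {y // a g y = y} : ℕ) : ℝ) - 1| =
      ((Nat.card {y // a g y = y} : ℕ) : ℝ) - 1 + 2 * (if ∀ y, a g y ≠ y then 1 else 0) := by
    intro g
    by_cases h : ∀ y, a g y ≠ y
    · rw [if_pos h]
      have : IsEmpty {y // a g y = y} := ⟨fun y => h y.1 y.2⟩
      rw [Nat.card_of_isEmpty]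
      norm_num
    · rw [if_neg h]
      push Not at h
      obtain ⟨y, hy⟩ := h
      have : Nonempty {y // a g y = y} := ⟨⟨y, hy⟩⟩
      have h3 : 1 ≤ Nat.card {y // a g y = y} := Nat.card_pos
      have h4 : (1 : ℝ) ≤ ((Nat.card {y // a g y = y} : ℕ) : ℝ) := by exact_mod_cast h3
      rw [abs_of_nonneg (by linarith)]
      ring
  rw [Finset.sum_congr rfl fun g _ => h2 g, Finset.sum_add_distrib, Finset.sum_sub_distrib, h1'',
    ← Finset.mul_sum, Finset.sum_boole, Finset.sum_const, Finset.card_univ, nsmul_eq_mul, mul_one,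
    ← Nat.card_eq_fintype_card, sub_self, zero_add, Nat.card_eq_fintype_card
      (α := {g : Γ // ∀ y, a g y ≠ y}), Fintype.card_subtype]
  rw [inv_mul_eq_div, mul_div_assoc]

/-- the mean value of `|fix - 1|` -/
theorem mean_drg (σ : HeightOneSpectrum (𝓞 K) → GK K) (hσ : ∀ v, IsFrob v (σ v)) (F : Type)
    [Field F] [NumberField F] [Algebra K F] :
    Tendsto (fun N => (∑ v ∈ upto K N, |(fixc K F (σ v) : ℝ) - 1|) /
      (Nat.primeCounting N : ℝ)) atTop (𝓝 (2 * derangements K F)) := by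
  have hopen := perm_open K F
  have hfin := finite_range (perm K F) hopen
  have h1 := cheb_fin (perm K F) hopen
    (fun t => |(Nat.card {j : F →ₐ[K] AlgebraicClosure K // t j = j} : ℝ) - 1|) (by
    intro a b
    rw [fixc_conj]) σ hσ
  have h2 := mean_fix_sub (Γ := (perm K F).range) (Y := F →ₐ[K] AlgebraicClosure K) (emb K F)
    (perm K F).range.subtype (fun i j => by
      obtain ⟨s, hs⟩ := perm_trans K F i j
      exact ⟨⟨perm K F s, ⟨s, rfl⟩⟩, hs⟩)
  have h3 : (Nat.card (perm K F).range : ℝ)⁻¹ * ∑ᶠ t : (perm K F).range,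
      |(Nat.card {j : F →ₐ[K] AlgebraicClosure K // t.1 j = j} : ℝ) - 1| =
      2 * derangements K F := h2
  rw [h3] at h1
  exact h1

/-- the mean value of `fix` is `1` -/
theorem mean_one (σ : HeightOneSpectrum (𝓞 K) → GK K) (hσ : ∀ v, IsFrob v (σ v)) (F : Type)
    [Field F] [NumberField F] [Algebra K F] :
    Tendsto (fun N => (∑ v ∈ upto K N, (fixc K F (σ v) : ℝ)) /
      (Nat.primeCounting N : ℝ)) atTop (𝓝 1) := by
  have h1 := cheb_ext (K := K) F (Q := Unit) 1 (by
    rw [MonoidHom.ker_one]; exact isOpen_univ) (fun _ => (1 : ℝ)) (fun _ _ => rfl) σ hσ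
  have h1' : ((Nat.card ((Datum.galois K F).map (1 : GK K →* Unit)) : ℝ))⁻¹ *
      ∑ᶠ _ : (Datum.galois K F).map (1 : GK K →* Unit), (1 : ℝ) = 1 := by
    let _ : Fintype ((Datum.galois K F).map (1 : GK K →* Unit)) := Fintype.ofFinite _
    rw [finsum_eq_sum_of_fintype, Finset.sum_const, Finset.card_univ, nsmul_eq_mul, mul_one,
      ← Nat.card_eq_fintype_card, inv_mul_cancel₀]
    exact_mod_cast Nat.card_pos.ne'
  rw [h1'] at h1
  simpa using h1

end

section
variable {K : Type} [Field K] [NumberField K] {G : Type} [Group G] [TopologicalSpace G]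
  [IsTopologicalGroup G] [CompactSpace G] [MeasurableSpace G] [BorelSpace G] (μ : Measure G)
  [IsProbabilityMeasure μ] [μ.IsHaarMeasure] (D : Datum K G)

theorem err_bd {f : G → ℝ} (hf : IsTest f) (σ : HeightOneSpectrum (𝓞 K) → GK K)
    (v : HeightOneSpectrum (𝓞 K)) : |f (D.x v) - comp μ D.π f (D.r (σ v))| ≤ 1 := by
  obtain ⟨h1, h2⟩ := comp_bd μ D.π D.π_surjective D.π_open f hf.continuous hf.nonneg hf.le_one
    (D.r (σ v))
  have h3 := hf.nonneg (D.x v)
  have h4 := hf.le_one (D.x v)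
  rw [abs_le]
  constructor <;> linarith

/-- a linear combination of discrepancies -/
theorem comb_eq (σ : HeightOneSpectrum (𝓞 K) → GK K) (hσ : ∀ v, IsFrob v (σ v)) {f : G → ℝ}
    (hf : IsTest f) {ι : Type} [Fintype ι] (F : ι → Type) [∀ i, Field (F i)]
    [∀ i, NumberField (F i)] [∀ i, Algebra K (F i)] (c : ι → ℝ) :
    Tendsto (fun N => ∑ i, c i * D.disc (F i) μ f N - (∑ v ∈ upto K N,
      (∑ i, c i * (fixc K (F i) (σ v) : ℝ)) * (f (D.x v) - comp μ D.π f (D.r (σ v)))) /
      (Nat.primeCounting N : ℝ)) atTop (𝓝 0) := by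
  have h1 : Tendsto (fun N => ∑ i, c i * (D.disc (F i) μ f N - (∑ v ∈ upto K N,
      (fixc K (F i) (σ v) : ℝ) * (f (D.x v) - comp μ D.π f (D.r (σ v)))) /
      (Nat.primeCounting N : ℝ))) atTop (𝓝 (∑ i, c i * 0)) :=
    tendsto_finsetSum _ fun i _ => (disc_eq μ D (F i) σ hσ hf).const_mul (c i)
  simp only [mul_zero, Finset.sum_const_zero] at h1
  refine h1.congr fun N => ?_
  have h2 : ∑ v ∈ upto K N, (∑ i, c i * (fixc K (F i) (σ v) : ℝ)) *
      (f (D.x v) - comp μ D.π f (D.r (σ v))) =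
      ∑ i, c i * ∑ v ∈ upto K N, (fixc K (F i) (σ v) : ℝ) *
        (f (D.x v) - comp μ D.π f (D.r (σ v))) := by
    simp only [Finset.mul_sum, Finset.sum_mul]
    rw [Finset.sum_comm]
    refine Finset.sum_congr rfl fun i _ => Finset.sum_congr rfl fun v _ => ?_
    ring
  rw [h2, Finset.sum_div, ← Finset.sum_sub_distrib]
  refine Finset.sum_congr rfl fun i _ => ?_
  ring

/-- **The relations between the discrepancies.** -/
theorem relations {ι : Type} [Fintype ι] (F : ι → Type) [∀ i, Field (F i)]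
    [∀ i, NumberField (F i)] [∀ i, Algebra K (F i)] (c : ι → ℝ) {f : G → ℝ} (hf : IsTest f)
    {η : ℝ} (hη : 0 < η) :
    ∀ᶠ N in atTop, |∑ i, c i * D.disc (F i) μ f N| ≤ meanAbs K F c + η := by
  choose σ hσ using exists_isFrob (F := K)
  have h := bound (K := K) σ (X := fun N => ∑ i, c i * D.disc (F i) μ f N)
    (θ := fun s => ∑ i, c i * (fixc K (F i) s : ℝ))
    (e := fun v => f (D.x v) - comp μ D.π f (D.r (σ v))) (b := 1)
    (fun v => err_bd μ D hf σ v) (comb_eq μ D σ hσ hf F c) (mean_abs σ hσ F c) hη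
  rw [one_mul] at h
  exact h

/-- two fields -/
theorem pair_eq (σ : HeightOneSpectrum (𝓞 K) → GK K) (hσ : ∀ v, IsFrob v (σ v)) {f : G → ℝ}
    (hf : IsTest f) (F : Type) [Field F] [NumberField F] [Algebra K F] :
    Tendsto (fun N => (D.disc F μ f N - D.disc K μ f N) - (∑ v ∈ upto K N,
      ((fixc K F (σ v) : ℝ) - 1) * (f (D.x v) - comp μ D.π f (D.r (σ v)))) /
      (Nat.primeCounting N : ℝ)) atTop (𝓝 0) := by
  have h1 := (disc_eq μ D F σ hσ hf).sub (disc_eq μ D K σ hσ hf)
  rw [sub_zero] at h1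
  refine h1.congr fun N => ?_
  have h2 : ∑ v ∈ upto K N, ((fixc K F (σ v) : ℝ) - 1) * (f (D.x v) - comp μ D.π f (D.r (σ v))) =
      ∑ v ∈ upto K N, (fixc K F (σ v) : ℝ) * (f (D.x v) - comp μ D.π f (D.r (σ v))) -
      ∑ v ∈ upto K N, (fixc K K (σ v) : ℝ) * (f (D.x v) - comp μ D.π f (D.r (σ v))) := by
    rw [← Finset.sum_sub_distrib]
    refine Finset.sum_congr rfl fun v _ => ?_
    rw [fixc_self]
    push_cast
    ring
  rw [h2]
  ring

/-- **Two fields.** -/
theorem two_fields (F : Type) [Field F] [NumberField F] [Algebra K F] {f : G → ℝ}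
    (hf : IsTest f) {η : ℝ} (hη : 0 < η) :
    ∀ᶠ N in atTop, |D.disc F μ f N - D.disc K μ f N| ≤ 2 * derangements K F + η := by
  choose σ hσ using exists_isFrob (F := K)
  have h := bound (K := K) σ (X := fun N => D.disc F μ f N - D.disc K μ f N)
    (θ := fun s => (fixc K F s : ℝ) - 1)
    (e := fun v => f (D.x v) - comp μ D.π f (D.r (σ v))) (b := 1)
    (fun v => err_bd μ D hf σ v) (pair_eq μ D σ hσ hf F) (mean_drg σ hσ F) hη
  rw [one_mul] at h
  exact h

end

end Pool.Agent.Helper644_ST
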