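import Pool.Agent.Helper644_ST.Count
import Pool.Agent.W540.BE.Freq

/-! Sums over the primes of an extension as weighted sums over the primes of the field. -/

set_option autoImplicit false

namespace Pool.Agent.Helper644_ST

open NumberField IsDedekindDomain Filter Topology MeasureTheory
open Pool.Agent.W401.Cheb (GK IsFrob)
open Pool.Agent.W540.BE (upto nm mem_upto exists_isFrob cheb_mean)
open Pool.Agent.W352.ChAbs (sqrt_div_pi const_div_pi decomp)

section
variable {F : Type} [Field F] [NumberField F]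

open Classical in
/-- the primes of composite norm -/
theorem card_composite (N : ℕ) :
    ((upto F N).filter fun w => ¬ (Ideal.absNorm w.asIdeal).Prime).card ≤
      Module.finrank ℚ F * (Nat.sqrt N + 1) := by
  obtain ⟨R, hR, h⟩ := decomp (K := F) (fun w => ¬ (Ideal.absNorm w.asIdeal).Prime) N
  have h0 : ∑ p ∈ Pool.Agent.W401.Cheb.pr N, Nat.card {v : HeightOneSpectrum (𝓞 F) //
      Ideal.absNorm v.asIdeal = p ∧ ¬ (Ideal.absNorm v.asIdeal).Prime} = 0 := by
    refine Finset.sum_eq_zero fun p hp => ?_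
    have hpp : p.Prime := (Finset.mem_filter.mp hp).2
    have : IsEmpty {v : HeightOneSpectrum (𝓞 F) //
      Ideal.absNorm v.asIdeal = p ∧ ¬ (Ideal.absNorm v.asIdeal).Prime} :=
      ⟨fun v => v.2.2 (by rw [v.2.1]; exact hpp)⟩
    exact Nat.card_of_isEmpty
  rw [h0, zero_add] at h
  have h1 : ((upto F N).filter fun w => ¬ (Ideal.absNorm w.asIdeal).Prime).card =
      Nat.card {v : HeightOneSpectrum (𝓞 F) // Ideal.absNorm v.asIdeal ≤ N ∧
        ¬ (Ideal.absNorm v.asIdeal).Prime} := by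
    have h2 : {v : HeightOneSpectrum (𝓞 F) | Ideal.absNorm v.asIdeal ≤ N ∧
        ¬ (Ideal.absNorm v.asIdeal).Prime} =
        (((upto F N).filter fun w => ¬ (Ideal.absNorm w.asIdeal).Prime :
          Finset (HeightOneSpectrum (𝓞 F))) : Set (HeightOneSpectrum (𝓞 F))) := by
      ext v
      rw [Finset.mem_coe, Finset.mem_filter, mem_upto]
      rfl
    have h3 : Nat.card {v : HeightOneSpectrum (𝓞 F) // Ideal.absNorm v.asIdeal ≤ N ∧
        ¬ (Ideal.absNorm v.asIdeal).Prime} = {v : HeightOneSpectrum (𝓞 F) |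
        Ideal.absNorm v.asIdeal ≤ N ∧ ¬ (Ideal.absNorm v.asIdeal).Prime}.ncard := rfl
    rw [h3, h2, Set.ncard_coe_finset]
  rw [h1, h]
  exact hR

/-- errors of size `√N` are negligible -/
theorem negligible {X : ℕ → ℝ} (C : ℝ) (h : ∀ N, |X N| ≤ C * (Nat.sqrt N + 1)) :
    Tendsto (fun N => X N / (Nat.primeCounting N : ℝ)) atTop (𝓝 0) := by
  have h1 : Tendsto (fun N : ℕ => C * ((Nat.sqrt N + 1 : ℝ) / (Nat.primeCounting N : ℝ))) atTop
      (𝓝 0) := by simpa using sqrt_div_pi.const_mul C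
  refine squeeze_zero_norm (fun N => ?_) h1
  rw [Real.norm_eq_abs, abs_div, abs_of_nonneg (a := (Nat.primeCounting N : ℝ)) (by positivity),
    ← mul_div_assoc]
  gcongr
  exact h N

open Classical in
/-- the sum over the primes of prime norm -/
noncomputable def psum (Φ : HeightOneSpectrum (𝓞 F) → ℝ) (N : ℕ) : ℝ :=
  ∑ w ∈ (upto F N).filter (fun w => (Ideal.absNorm w.asIdeal).Prime), Φ w

theorem sub_psum (Φ : HeightOneSpectrum (𝓞 F) → ℝ) {B : ℝ} (hB : ∀ w, |Φ w| ≤ B) (N : ℕ) :
    |∑ w ∈ upto F N, Φ w - psum Φ N| ≤ (B * Module.finrank ℚ F) * (Nat.sqrt N + 1) := by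
  classical
  have h1 : ∑ w ∈ upto F N, Φ w - psum Φ N =
      ∑ w ∈ (upto F N).filter (fun w => ¬ (Ideal.absNorm w.asIdeal).Prime), Φ w := by
    rw [psum, ← Finset.sum_filter_add_sum_filter_not (upto F N)
      (fun w => (Ideal.absNorm w.asIdeal).Prime)]
    ring
  have hB0 : 0 ≤ B := by
    obtain ⟨M, hM⟩ := Ideal.exists_maximal (𝓞 F)
    exact (abs_nonneg _).trans (hB ⟨M, hM.isPrime, Ring.ne_bot_of_isMaximal_of_not_isField hM
        (RingOfIntegers.not_isField F)⟩)
  rw [h1]
  refine (Finset.abs_sum_le_sum_abs _ _).trans ?_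
  refine (Finset.sum_le_card_nsmul _ _ B fun w _ => hB w).trans ?_
  rw [nsmul_eq_mul]
  have h2 := card_composite (F := F) N
  have h3 : (((upto F N).filter fun w => ¬ (Ideal.absNorm w.asIdeal).Prime).card : ℝ) ≤
      Module.finrank ℚ F * (Nat.sqrt N + 1) := by exact_mod_cast h2
  calc _ ≤ (Module.finrank ℚ F * (Nat.sqrt N + 1) : ℝ) * B := by gcongr
    _ = _ := by ring

/-- finitely many terms are negligible -/
theorem psum_congr (Φ Ψ : HeightOneSpectrum (𝓞 F) → ℝ)
    (h : ∀ᶠ w in cofinite, (Ideal.absNorm w.asIdeal).Prime → Φ w = Ψ w) :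
    ∃ C : ℝ, ∀ N, |psum Φ N - psum Ψ N| ≤ C := by
  classical
  have hfin : {w : HeightOneSpectrum (𝓞 F) |
      ¬ ((Ideal.absNorm w.asIdeal).Prime → Φ w = Ψ w)}.Finite := h
  refine ⟨∑ w ∈ hfin.toFinset, |Φ w - Ψ w|, fun N => ?_⟩
  rw [psum, psum, ← Finset.sum_sub_distrib]
  refine (Finset.abs_sum_le_sum_abs _ _).trans ?_
  rw [← Finset.sum_filter_of_ne (p := fun w => w ∈ hfin.toFinset)]
  · refine Finset.sum_le_sum_of_subset_of_nonneg ?_ fun _ _ _ => abs_nonneg _
    intro w hw
    exact (Finset.mem_filter.1 hw).2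
  · intro w hw hne
    rw [Set.Finite.mem_toFinset]
    intro h1
    apply hne
    rw [h1 (Finset.mem_filter.1 hw).2, sub_self, abs_zero]

end

section
variable {K F : Type} [Field K] [NumberField K] [Field F] [NumberField F] [Algebra K F]

variable (K F) in
/-- the number of fixed embeddings -/
noncomputable def fixc (σ : GK K) : ℕ :=
  Nat.card {i : F →ₐ[K] AlgebraicClosure K // perm K F σ i = i}

theorem fixc_le (σ : GK K) : (fixc K F σ : ℝ) ≤ Module.finrank ℚ F := by
  have h1 : fixc K F σ ≤ Nat.card (F →ₐ[K] AlgebraicClosure K) := by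
    unfold fixc
    exact Nat.card_le_card_of_injective Subtype.val Subtype.val_injective
  have h2 : Nat.card (F →ₐ[K] AlgebraicClosure K) = Module.finrank K F := by
    rw [Nat.card_eq_fintype_card]
    exact AlgHom.card K F (AlgebraicClosure K)
  have h3 : Module.finrank K F ≤ Module.finrank ℚ F := by
    rw [← Module.finrank_mul_finrank ℚ K F]
    exact Nat.le_mul_of_pos_left _ Module.finrank_pos
  exact_mod_cast h1.trans (h2.le.trans h3)

open Classical in
/-- the number of the primes of prime norm above a prime -/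
noncomputable def above (F : Type) [Field F] [NumberField F] [Algebra K F]
    (v : HeightOneSpectrum (𝓞 K)) : ℕ :=
  Nat.card {w : HeightOneSpectrum (𝓞 F) // w.under (𝓞 K) = v ∧ (Ideal.absNorm w.asIdeal).Prime}

theorem above_le (v : HeightOneSpectrum (𝓞 K)) : above F v ≤ Module.finrank ℚ F := by
  classical
  set p := Ideal.absNorm v.asIdeal with hp
  by_cases h : p.Prime
  · have h1 := Pool.Agent.W352.ChAbs.over_le (K := F) p h
    have h2 : above F v = {w : HeightOneSpectrum (𝓞 F) | w.under (𝓞 K) = v ∧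
        (Ideal.absNorm w.asIdeal).Prime}.ncard := rfl
    rw [h2]
    refine (Set.ncard_le_ncard ?_ h1.1).trans h1.2
    rintro w ⟨hw1, hw2⟩
    have h3 := (deg_one (K := K) w hw2).2
    rw [hw1, ← hp] at h3
    rw [Set.mem_ofPred_eq]
    have h4 := Ideal.absNorm_mem w.asIdeal
    rw [← h3] at h4
    exact h4
  · have : IsEmpty {w : HeightOneSpectrum (𝓞 F) // w.under (𝓞 K) = v ∧
        (Ideal.absNorm w.asIdeal).Prime} := by
      refine ⟨fun w => h ?_⟩
      have h3 := (deg_one (K := K) w.1 w.2.2).2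
      rw [w.2.1, ← hp] at h3
      rw [h3]
      exact w.2.2
    unfold above
    rw [Nat.card_of_isEmpty]
    exact Nat.zero_le _

/-- the sum over the primes of prime norm of the extension -/
theorem psum_under (φ : HeightOneSpectrum (𝓞 K) → ℝ) (N : ℕ) :
    psum (fun w : HeightOneSpectrum (𝓞 F) => φ (w.under (𝓞 K))) N =
      psum (fun v : HeightOneSpectrum (𝓞 K) => (above F v : ℝ) * φ v) N := by
  classical
  unfold psum
  rw [← Finset.sum_fiberwise_of_maps_to (s := (upto F N).filter (fun w =>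
    (Ideal.absNorm w.asIdeal).Prime)) (t := (upto K N).filter (fun v =>
    (Ideal.absNorm v.asIdeal).Prime)) (g := fun w => w.under (𝓞 K))]
  · refine Finset.sum_congr rfl fun v hv => ?_
    rw [Finset.mem_filter, mem_upto] at hv
    have h1 : ∀ w ∈ ((upto F N).filter (fun w => (Ideal.absNorm w.asIdeal).Prime)).filter
        (fun w => w.under (𝓞 K) = v), φ (w.under (𝓞 K)) = φ v := fun w hw => by
      rw [(Finset.mem_filter.1 hw).2]
    rw [Finset.sum_congr rfl h1, Finset.sum_const, nsmul_eq_mul]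
    congr 2
    have h2 : {w : HeightOneSpectrum (𝓞 F) | w.under (𝓞 K) = v ∧
        (Ideal.absNorm w.asIdeal).Prime} =
        ((((upto F N).filter (fun w => (Ideal.absNorm w.asIdeal).Prime)).filter
        (fun w => w.under (𝓞 K) = v) : Finset (HeightOneSpectrum (𝓞 F))) :
          Set (HeightOneSpectrum (𝓞 F))) := by
      ext w
      rw [Finset.mem_coe, Finset.mem_filter, Finset.mem_filter, mem_upto, Set.mem_ofPred_eq]
      constructor
      · rintro ⟨a, b⟩
        refine ⟨⟨?_, b⟩, a⟩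
        have h3 := (deg_one (K := K) w b).2
        rw [a] at h3
        change Ideal.absNorm w.asIdeal ≤ N
        rw [← h3]
        exact hv.1
      · rintro ⟨⟨-, b⟩, a⟩
        exact ⟨a, b⟩
    have h3 : above F v = {w : HeightOneSpectrum (𝓞 F) | w.under (𝓞 K) = v ∧
        (Ideal.absNorm w.asIdeal).Prime}.ncard := rfl
    rw [h3, h2, Set.ncard_coe_finset]
  · intro w hw
    rw [Finset.mem_filter, mem_upto] at hw ⊢
    have h3 := (deg_one (K := K) w hw.2).2
    refine ⟨?_, ?_⟩
    · change Ideal.absNorm _ ≤ N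
      rw [h3]
      exact hw.1
    · rw [h3]
      exact hw.2

/-- at almost all primes the number of the primes of prime norm above is the number of the fixed
embeddings -/
theorem above_eq (σ : HeightOneSpectrum (𝓞 K) → GK K) (hσ : ∀ v, IsFrob v (σ v)) :
    ∀ᶠ v in cofinite, (Ideal.absNorm v.asIdeal).Prime → above F v = fixc K F (σ v) := by
  classical
  obtain ⟨e, he0, he⟩ := Pool.Agent.W353.NF.separate_all K F
  have hfin : {v : HeightOneSpectrum (𝓞 K) | e ∈ v.asIdeal}.Finite := by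
    have h0 : Ideal.span {e} ≠ 0 := by
      rw [Ne, Ideal.zero_eq_bot, Ideal.span_singleton_eq_bot]
      exact he0
    refine (Ideal.finite_factors h0).subset fun v hv => ?_
    rw [Set.mem_ofPred_eq] at hv ⊢
    rw [Ideal.dvd_span_singleton]
    exact hv
  have h1 : ∀ᶠ v : HeightOneSpectrum (𝓞 K) in cofinite, e ∉ v.asIdeal := by
    rw [Filter.eventually_cofinite]
    simpa using hfin
  filter_upwards [h1] with v hv hp
  exact card_above v e he hv (σ v) (hσ v) hp

/-- **Transfer.** -/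
theorem transfer (σ : HeightOneSpectrum (𝓞 K) → GK K) (hσ : ∀ v, IsFrob v (σ v))
    (Φ : HeightOneSpectrum (𝓞 F) → ℝ) (φ : HeightOneSpectrum (𝓞 K) → ℝ) {B : ℝ}
    (hΦ : ∀ w, |Φ w| ≤ B) (hφ : ∀ v, |φ v| ≤ B)
    (h : ∀ᶠ w in cofinite, (Ideal.absNorm w.asIdeal).Prime → Φ w = φ (w.under (𝓞 K))) :
    Tendsto (fun N => (∑ w ∈ upto F N, Φ w - ∑ v ∈ upto K N, (fixc K F (σ v) : ℝ) * φ v) /
      (Nat.primeCounting N : ℝ)) atTop (𝓝 0) := by
  classical
  set n : ℝ := (Module.finrank ℚ F : ℝ) with hn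
  have hn0 : 0 ≤ n := by positivity
  obtain ⟨C1, hC1⟩ := psum_congr Φ (fun w => φ (w.under (𝓞 K))) h
  have hb2 : ∀ v : HeightOneSpectrum (𝓞 K), |(fixc K F (σ v) : ℝ) * φ v| ≤ n * B := by
    intro v
    rw [abs_mul, abs_of_nonneg (Nat.cast_nonneg _)]
    exact mul_le_mul (fixc_le _) (hφ v) (abs_nonneg _) hn0
  obtain ⟨C2, hC2⟩ := psum_congr (fun v : HeightOneSpectrum (𝓞 K) => (above F v : ℝ) * φ v)
    (fun v => (fixc K F (σ v) : ℝ) * φ v) (by
      filter_upwards [above_eq (F := F) σ hσ] with v hv hp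
      rw [hv hp])
  have hC10 : 0 ≤ C1 := (abs_nonneg _).trans (hC1 0)
  have hC20 : 0 ≤ C2 := (abs_nonneg _).trans (hC2 0)
  refine negligible (B * Module.finrank ℚ F + C1 + C2 + (n * B) * Module.finrank ℚ K)
    fun N => ?_
  have e1 := sub_psum Φ hΦ N
  have e2 := hC1 N
  rw [psum_under] at e2
  have e3 := hC2 N
  have e4 := sub_psum (fun v : HeightOneSpectrum (𝓞 K) => (fixc K F (σ v) : ℝ) * φ v) hb2 N
  have hs : (1 : ℝ) ≤ (Nat.sqrt N + 1 : ℝ) := by
    have : (0 : ℝ) ≤ Nat.sqrt N := by positivity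
    linarith
  have e5 : C1 ≤ C1 * (Nat.sqrt N + 1 : ℝ) := le_mul_of_one_le_right hC10 hs
  have e6 : C2 ≤ C2 * (Nat.sqrt N + 1 : ℝ) := le_mul_of_one_le_right hC20 hs
  rw [abs_le] at e1 e2 e3 e4 ⊢
  constructor <;> nlinarith [e1.1, e1.2, e2.1, e2.2, e3.1, e3.2, e4.1, e4.2]

end

end Pool.Agent.Helper644_ST
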